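import Pool.Agent.Lib_helper16.Time.Core

/-!
The asymptotic form of the lower bound.
-/

set_option autoImplicit false

namespace Pool.Agent.Time

open Pool.Agent.Heads

lemma sq_le_two_pow (S : ℕ) : (S + 1) ^ 2 ≤ 4 * 2 ^ S := by
  induction S with
  | zero => norm_num
  | succ S ih =>
    rcases Nat.lt_or_ge S 2 with h | h
    · interval_cases S <;> norm_num
    · rw [pow_succ 2 S]
      nlinarith

lemma quad_bound (S' k q P : ℕ) (hP : 0 < P) :
    S' + 4 * q * (S' + 1 + 1) + (S' + 2) * P * (2 * k * (4 * q * (S' + 1 + 1) + 1) + 1) ≤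
      (S' + 1 + 1) ^ 2 * P * (2 + 4 * q + 8 * k * q + 2 * k) := by
  obtain ⟨u, hu⟩ : ∃ u, u = S' + 2 := ⟨_, rfl⟩
  have e : S' + 1 + 1 = u := by omega
  rw [e]
  have h1 : S' ≤ u ^ 2 * P := by
    have h2 : u * 1 ≤ u * u := Nat.mul_le_mul_left u (by omega)
    have h3 : u * u * 1 ≤ u * u * P := Nat.mul_le_mul_left _ hP
    have h4 : u ^ 2 * P = u * u * P := by ring
    omega
  have h2 : 4 * q * u ≤ u ^ 2 * P * (4 * q) := by
    have h3 : u * 1 ≤ u * u := Nat.mul_le_mul_left u (by omega)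
    have h4 : u * u * 1 ≤ u * u * P := Nat.mul_le_mul_left _ hP
    have h5 : u ≤ u ^ 2 * P := by
      have : u ^ 2 * P = u * u * P := by ring
      omega
    calc 4 * q * u = u * (4 * q) := by ring
      _ ≤ u ^ 2 * P * (4 * q) := Nat.mul_le_mul_right _ h5
  have h3 : u * P * (2 * k * (4 * q * u + 1) + 1) ≤ u ^ 2 * P * (8 * k * q + 2 * k + 1) := by
    have h4 : 2 * k * (4 * q * u + 1) + 1 ≤ u * (8 * k * q + 2 * k + 1) := by
      have h5 : 1 * (2 * k + 1) ≤ u * (2 * k + 1) := Nat.mul_le_mul_right _ (by omega)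
      calc 2 * k * (4 * q * u + 1) + 1 = u * (8 * k * q) + 1 * (2 * k + 1) := by ring
        _ ≤ u * (8 * k * q) + u * (2 * k + 1) := Nat.add_le_add_left h5 _
        _ = u * (8 * k * q + 2 * k + 1) := by ring
    calc u * P * (2 * k * (4 * q * u + 1) + 1) ≤ u * P * (u * (8 * k * q + 2 * k + 1)) :=
          Nat.mul_le_mul_left _ h4
      _ = u ^ 2 * P * (8 * k * q + 2 * k + 1) := by ring
  calc S' + 4 * q * u + u * P * (2 * k * (4 * q * u + 1) + 1)
      ≤ u ^ 2 * P + u ^ 2 * P * (4 * q) + u ^ 2 * P * (8 * k * q + 2 * k + 1) :=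
        Nat.add_le_add (Nat.add_le_add h1 h2) h3
    _ = _ := by ring

/-- The numerical facts. -/
lemma numerics (k q n s S m T L : ℕ) (hk : 1 ≤ k) (hq : 1 ≤ q)
    (hs : s ^ q ≤ n ^ (q - 1))
    (hL1 : 2 ^ (4 * q * S) ≤ n) (hL2 : n < 2 ^ (4 * q * (S + 1))) (hLS : L < 4 * q * (S + 1))
    (hm1 : 12 * 2 ^ S * m ≤ n) (hm2 : n < 12 * 2 ^ S * (m + 1))
    (hS : 104 * (2 + 4 * q + 8 * k * q + 2 * k) + 3 * k * k + 10 ≤ S)
    (hT : 1000 * q * (k * k) * T ≤ n * L) :
    k * k * (T + m * 2 ^ (S - 1) + 1) < (S - 2) * (m * 2 ^ (S - 1)) ∧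
    (∀ Q : ℕ, Q ≤ 2 ^ s →
      2 ^ (S - 2) * (m * ((Q * (n + 2) ^ k) ^ 2 + 1) ^ (2 * k * T / m)) < 2 ^ m) := by
  obtain ⟨S', rfl⟩ : ∃ S', S = S' + 1 := ⟨S - 1, by omega⟩
  have e1 : S' + 1 - 1 = S' := by omega
  rw [e1]
  set X := m * 2 ^ S' with hX
  have h16 : 16 ^ (S' + 1) ≤ n := by
    refine le_trans ?_ hL1
    rw [show (16 : ℕ) = 2 ^ 4 by norm_num, ← pow_mul]
    exact Nat.pow_le_pow_right (by norm_num) (by nlinarith)
  have hpos2 : 0 < 2 ^ S' := by positivity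
  have hS2 : 2 ^ (S' + 1) = 2 * 2 ^ S' := by rw [pow_succ]; ring
  have h2S : S' < 2 ^ S' := Nat.lt_two_pow_self
  -- m is large
  have hm : 24 ≤ m := by
    by_contra h
    have h1 : n < 12 * 2 ^ (S' + 1) * 24 :=
      lt_of_lt_of_le hm2 (Nat.mul_le_mul_left _ (by omega))
    have h2 : (16 : ℕ) ^ (S' + 1) = 2 ^ (S' + 1) * 8 ^ (S' + 1) := by
      rw [← mul_pow]
      norm_num
    have h3 : (8 : ℕ) ^ 3 ≤ 8 ^ (S' + 1) := Nat.pow_le_pow_right (by norm_num) (by omega)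
    have h4 : 2 ^ (S' + 1) * 8 ^ 3 ≤ 2 ^ (S' + 1) * 8 ^ (S' + 1) := Nat.mul_le_mul_left _ h3
    have h5 : (8 : ℕ) ^ 3 = 512 := by norm_num
    rw [h5] at h4
    omega
  have hX1 : 24 * 2 ^ S' ≤ X := Nat.mul_le_mul_right _ hm
  have hn25 : n ≤ 25 * X := by
    have h1 : 12 * 2 ^ (S' + 1) * (m + 1) = 24 * X + 24 * 2 ^ S' := by
      rw [hS2, hX]; ring
    omega
  -- the bound for T
  have hTX : 10 * (k * k * T) ≤ X * (S' + 2) := by
    have h1 : n * L ≤ 25 * X * (4 * q * (S' + 1 + 1)) := Nat.mul_le_mul hn25 hLS.le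
    have h2 : 1000 * q * (k * k) * T = 100 * q * (10 * (k * k * T)) := by ring
    have h3 : 25 * X * (4 * q * (S' + 1 + 1)) = 100 * q * (X * (S' + 2)) := by ring
    rw [h2] at hT
    rw [h3] at h1
    exact Nat.le_of_mul_le_mul_left (hT.trans h1) (by omega)
  have hXpos : 0 < X := by
    have := Nat.mul_pos (show 0 < m by omega) hpos2
    exact this
  constructor
  · -- first inequality
    have h1 : 10 * (k * k * (T + X + 1)) ≤ X * (S' + 2 + 20 * (k * k)) := by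
      have : k * k ≤ k * k * X := Nat.le_mul_of_pos_right _ hXpos
      nlinarith
    have h2 : X * (S' + 2 + 20 * (k * k)) < 10 * ((S' + 1 - 2) * X) := by
      obtain ⟨S'', rfl⟩ : ∃ S'', S' = S'' + 1 := ⟨S' - 1, by omega⟩
      have h3 : S'' + 1 + 1 - 2 = S'' := by omega
      rw [h3]
      have h4 : S'' + 1 + 2 + 20 * (k * k) < 10 * S'' := by nlinarith
      calc X * (S'' + 1 + 2 + 20 * (k * k)) < X * (10 * S'') :=
            Nat.mul_lt_mul_of_pos_left h4 hXpos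
        _ = 10 * (S'' * X) := by ring
    omega
  · -- second inequality
    intro Q hQ
    set a := 4 * q * (S' + 1 + 1) with ha
    set E := 2 * k * T / m with hE
    have hE1 : E ≤ (S' + 2) * 2 ^ S' := by
      have h1 : E * m ≤ 2 * k * T := Nat.div_mul_le_self _ _
      have h2 : 2 * k * T ≤ 2 * (k * k * T) := by
        have h5 : k * 1 ≤ k * k := Nat.mul_le_mul_left k hk
        have h6 : k * 1 * T ≤ k * k * T := Nat.mul_le_mul_right T h5
        have h7 : 2 * k * T = 2 * (k * 1 * T) := by ring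
        omega
      have h3 : E * m ≤ (S' + 2) * 2 ^ S' * m := by
        have h4 : X * (S' + 2) = (S' + 2) * 2 ^ S' * m := by rw [hX]; ring
        rw [← h4]
        omega
      exact Nat.le_of_mul_le_mul_right h3 (by omega)
    have hn2 : n + 2 ≤ 2 ^ (a + 1) := by
      rw [pow_succ]
      have h8 : 2 ^ 2 ≤ 2 ^ a := Nat.pow_le_pow_right (by norm_num) (by rw [ha]; nlinarith)
      omega
    have hbase : (Q * (n + 2) ^ k) ^ 2 + 1 ≤ 2 ^ (2 * s + 2 * k * (a + 1) + 1) := by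
      have h1 : Q * (n + 2) ^ k ≤ 2 ^ (s + k * (a + 1)) := by
        rw [pow_add, mul_comm k (a + 1), pow_mul]
        exact Nat.mul_le_mul hQ (Nat.pow_le_pow_left hn2 k)
      have h2 : (Q * (n + 2) ^ k) ^ 2 ≤ 2 ^ (2 * s + 2 * k * (a + 1)) := by
        calc (Q * (n + 2) ^ k) ^ 2 ≤ (2 ^ (s + k * (a + 1))) ^ 2 := Nat.pow_le_pow_left h1 2
          _ = 2 ^ (2 * s + 2 * k * (a + 1)) := by rw [← pow_mul]; congr 1; ring
      rw [pow_succ 2 (2 * s + 2 * k * (a + 1))]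
      have h3 : 1 ≤ 2 ^ (2 * s + 2 * k * (a + 1)) := Nat.one_le_two_pow
      omega
    -- total exponent
    have hmn : m ≤ 2 ^ a := by
      have h1 : m ≤ n := by
        refine le_trans ?_ hm1
        have h2 : 1 ≤ 12 * 2 ^ (S' + 1) := by
          have := Nat.one_le_two_pow (n := S' + 1)
          omega
        exact Nat.le_mul_of_pos_left m (by omega)
      omega
    have htot : 2 ^ (S' + 1 - 2) * (m * ((Q * (n + 2) ^ k) ^ 2 + 1) ^ E) ≤
        2 ^ (S' + a + (S' + 2) * 2 ^ S' * (2 * s + 2 * k * (a + 1) + 1)) := by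
      rw [pow_add, pow_add, mul_assoc]
      refine Nat.mul_le_mul (Nat.pow_le_pow_right (by norm_num) (by omega)) ?_
      refine Nat.mul_le_mul hmn ?_
      calc ((Q * (n + 2) ^ k) ^ 2 + 1) ^ E
          ≤ (2 ^ (2 * s + 2 * k * (a + 1) + 1)) ^ E := Nat.pow_le_pow_left hbase E
        _ = 2 ^ ((2 * s + 2 * k * (a + 1) + 1) * E) := by rw [← pow_mul]
        _ ≤ 2 ^ ((S' + 2) * 2 ^ S' * (2 * s + 2 * k * (a + 1) + 1)) := by
            refine Nat.pow_le_pow_right (by norm_num) ?_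
            rw [mul_comm]
            exact Nat.mul_le_mul_right _ hE1
    refine lt_of_le_of_lt htot (Nat.pow_lt_pow_right (by norm_num) ?_)
    -- the exponent is less than m
    have hquad : 2 * (13 * 2 ^ (S' + 1) *
        (S' + a + (S' + 2) * 2 ^ S' * (2 * k * (a + 1) + 1))) < n := by
      refine lt_of_lt_of_le ?_ h16
      have h1 : S' + a + (S' + 2) * 2 ^ S' * (2 * k * (a + 1) + 1) ≤
          (S' + 1 + 1) ^ 2 * 2 ^ S' * (2 + 4 * q + 8 * k * q + 2 * k) := by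
        rw [ha]
        exact quad_bound S' k q (2 ^ S') hpos2
      have h2 := sq_le_two_pow (S' + 1)
      set c1 := 2 + 4 * q + 8 * k * q + 2 * k with hc1
      have h3 : 104 * c1 < 2 ^ (S' + 1) := by
        have : S' + 1 < 2 ^ (S' + 1) := Nat.lt_two_pow_self
        omega
      calc 2 * (13 * 2 ^ (S' + 1) * (S' + a + (S' + 2) * 2 ^ S' * (2 * k * (a + 1) + 1)))
          ≤ 2 * (13 * 2 ^ (S' + 1) * ((S' + 1 + 1) ^ 2 * 2 ^ S' * c1)) :=
            Nat.mul_le_mul_left _ (Nat.mul_le_mul_left _ h1)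
        _ = 13 * ((S' + 1 + 1) ^ 2) * (c1 * (2 ^ (S' + 1) * 2 ^ (S' + 1))) := by
            rw [hS2]; ring
        _ ≤ 13 * (4 * 2 ^ (S' + 1)) * (c1 * (2 ^ (S' + 1) * 2 ^ (S' + 1))) :=
            Nat.mul_le_mul_right _ (Nat.mul_le_mul_left _ h2)
        _ = 52 * c1 * (2 ^ (S' + 1) * 2 ^ (S' + 1) * 2 ^ (S' + 1)) := by ring
        _ < 2 ^ (S' + 1) * (2 ^ (S' + 1) * 2 ^ (S' + 1) * 2 ^ (S' + 1)) := by
            refine Nat.mul_lt_mul_of_pos_right ?_ (by positivity)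
            omega
        _ = 16 ^ (S' + 1) := by
            rw [show (16 : ℕ) = 2 * 2 * 2 * 2 by norm_num, mul_pow, mul_pow, mul_pow]
            ring
    have hlin : 52 * (S' + 2) * (2 ^ (S' + 1) * 2 ^ S') * s ≤ n := by
      have h1 : (52 * (S' + 2) * (2 ^ (S' + 1) * 2 ^ S') * s) ^ q ≤ n ^ q := by
        have h2 : 52 * (S' + 2) * (2 ^ (S' + 1) * 2 ^ S') ≤ 2 ^ (4 * (S' + 1)) := by
          have h3 : 52 * (S' + 2) ≤ 2 ^ (S' + 1) * 2 ^ (S' + 1) := by
            have h4 : 104 ≤ 2 ^ (S' + 1) := by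
              have : S' + 1 < 2 ^ (S' + 1) := Nat.lt_two_pow_self
              omega
            have h5 : S' + 1 < 2 ^ (S' + 1) := Nat.lt_two_pow_self
            calc 52 * (S' + 2) ≤ 104 * (S' + 1) := by omega
              _ ≤ 2 ^ (S' + 1) * 2 ^ (S' + 1) := Nat.mul_le_mul h4 h5.le
          calc 52 * (S' + 2) * (2 ^ (S' + 1) * 2 ^ S')
              ≤ 2 ^ (S' + 1) * 2 ^ (S' + 1) * (2 ^ (S' + 1) * 2 ^ (S' + 1)) := by
                refine Nat.mul_le_mul h3 (Nat.mul_le_mul_left _ ?_)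
                exact Nat.pow_le_pow_right (by norm_num) (by omega)
            _ = 2 ^ (4 * (S' + 1)) := by
                rw [← pow_add, ← pow_add]
                congr 1
                ring
        calc (52 * (S' + 2) * (2 ^ (S' + 1) * 2 ^ S') * s) ^ q
            = (52 * (S' + 2) * (2 ^ (S' + 1) * 2 ^ S')) ^ q * s ^ q := mul_pow _ _ _
          _ ≤ (2 ^ (4 * (S' + 1))) ^ q * n ^ (q - 1) :=
              Nat.mul_le_mul (Nat.pow_le_pow_left h2 q) hs
          _ = 2 ^ (4 * q * (S' + 1)) * n ^ (q - 1) := by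
              rw [← pow_mul]
              congr 2
              ring
          _ ≤ n * n ^ (q - 1) := Nat.mul_le_mul_right _ hL1
          _ = n ^ q := by
              rw [← pow_succ']
              congr 1
              omega
      exact (Nat.pow_le_pow_iff_left (by omega)).1 h1
    -- combine
    have hn13 : n ≤ 13 * 2 ^ (S' + 1) * m := by
      have h1 : 13 * 2 ^ (S' + 1) * m = 26 * X := by rw [hS2, hX]; ring
      omega
    have hcomb : 13 * 2 ^ (S' + 1) *
        (S' + a + (S' + 2) * 2 ^ S' * (2 * s + 2 * k * (a + 1) + 1)) < n := by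
      have h1 : 2 * (13 * 2 ^ (S' + 1) *
          (S' + a + (S' + 2) * 2 ^ S' * (2 * s + 2 * k * (a + 1) + 1))) =
          2 * (13 * 2 ^ (S' + 1) * (S' + a + (S' + 2) * 2 ^ S' * (2 * k * (a + 1) + 1))) +
          52 * (S' + 2) * (2 ^ (S' + 1) * 2 ^ S') * s := by ring
      omega
    exact Nat.lt_of_mul_lt_mul_left (lt_of_lt_of_le hcomb hn13)

/-- Every `k`-head automaton with at most `2 ^ s` states, `s ≤ n ^ (1 - 1 / q)`, which is correct
for the Dyck language on the words of length `n`, needs at least `n log n / (1000 q k^2)` steps on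
some Dyck word of length `n`. -/
theorem lower_bound (k q : ℕ) (hk : 1 ≤ k) (hq : 1 ≤ q) : ∃ n₀ : ℕ, ∀ n ≥ n₀, Even n →
    ∀ (A : FA Br k) (s : ℕ), s ^ q ≤ n ^ (q - 1) → Nat.card A.Q ≤ 2 ^ s →
    (∀ w : List Br, w.length = n → (w ∈ A.lang → IsDyck w)) →
    ∃ w : List Br, w.length = n ∧ IsDyck w ∧ ∀ t c,
      ReachN (A.Step w) (A.start, fun _ => 0) t c → c.1 ∈ A.accept →
      n * Nat.log 2 n ≤ 1000 * q * (k * k) * t := by
  let S₀ := 104 * (2 + 4 * q + 8 * k * q + 2 * k) + 3 * k * k + 10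
  refine ⟨2 ^ (4 * q * S₀), ?_⟩
  intro n hn heven A s hs hQ hcor
  by_contra hcon
  push Not at hcon
  have hn0 : n ≠ 0 := by
    have : 1 ≤ 2 ^ (4 * q * S₀) := Nat.one_le_two_pow
    omega
  set L := Nat.log 2 n with hL
  set S := L / (4 * q) with hS
  set m := n / (12 * 2 ^ S) with hm
  have hq4 : 0 < 4 * q := by omega
  have hS0 : S₀ ≤ S := by
    rw [hS, Nat.le_div_iff_mul_le hq4, hL, mul_comm]
    exact Nat.le_log_of_pow_le (by norm_num) hn
  have hSL : 4 * q * S ≤ L := Nat.mul_div_le L (4 * q)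
  have hLS : L < 4 * q * (S + 1) := by
    have := Nat.lt_mul_div_succ L hq4
    exact this
  have hL1 : 2 ^ (4 * q * S) ≤ n :=
    (Nat.pow_le_pow_right (by norm_num) hSL).trans (Nat.pow_log_le_self 2 hn0)
  have hL2 : n < 2 ^ (4 * q * (S + 1)) := by
    have h1 : n < 2 ^ (L + 1) := Nat.lt_pow_succ_log_self (by norm_num) n
    exact lt_of_lt_of_le h1 (Nat.pow_le_pow_right (by norm_num) hLS)
  have h12 : 0 < 12 * 2 ^ S := by positivity
  have hm1 : 12 * 2 ^ S * m ≤ n := Nat.mul_div_le n (12 * 2 ^ S)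
  have hm2 : n < 12 * 2 ^ S * (m + 1) := Nat.lt_mul_div_succ n h12
  set T := n * L / (1000 * q * (k * k)) with hT
  have hT1 : 1000 * q * (k * k) * T ≤ n * L := Nat.mul_div_le _ _
  obtain ⟨n1, n2⟩ := numerics k q n s S m T L hk hq hs hL1 hL2 hLS hm1 hm2 hS0 hT1
  have hSge : 3 ≤ S := by
    have : 10 ≤ S₀ := by simp only [S₀]; omega
    omega
  have hmpos : 0 < m := by
    rcases Nat.eq_zero_or_pos m with h0 | h0
    · rw [h0] at n1
      simp at n1
    · exact h0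
  -- the length
  have hlen : len (3 * m) S ≤ n ∧ Even (len (3 * m) S) := by
    have h1 := len_eq (3 * m) S
    have h2 : 3 * m * 2 ^ (S + 2) = 12 * 2 ^ S * m := by rw [pow_add]; ring
    rw [h2] at h1
    refine ⟨by omega, ?_⟩
    cases S with
    | zero => exact ⟨3 * m, by show 2 * (3 * m) = _; ring⟩
    | succ S => exact ⟨3 * m + len (3 * m) S, by
        show 2 * (3 * m) + 2 * len (3 * m) S = _; ring⟩
  obtain ⟨hle, hev⟩ := hlen
  obtain ⟨j, hj⟩ : ∃ j, n = len (3 * m) S + 2 * j := by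
    obtain ⟨x, hx⟩ := heven
    obtain ⟨y, hy⟩ := hev
    exact ⟨x - y, by omega⟩
  obtain ⟨D, hD⟩ : ∃ D, D + 3 = S := ⟨S - 3, by omega⟩
  have e1 : S - 2 = D + 1 := by omega
  refine core A S m j T D hD hmpos ?_ ?_ ?_ ?_
  · intro w hw
    exact hcor w (hw.trans hj.symm)
  · intro w hw hdy
    obtain ⟨t, c, h1, h2, h3⟩ := hcon w (hw.trans hj.symm) hdy
    refine ⟨t, ?_, c, h1, h2⟩
    rw [hT, Nat.le_div_iff_mul_le (by
      have := Nat.mul_pos hk hk
      have h4 : 0 < 1000 * q := by omega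
      exact Nat.mul_pos h4 this)]
    rw [mul_comm]
    exact h3.le
  · rw [← e1]
    exact n1
  · have h4 := n2 (Nat.card A.Q) hQ
    rw [e1] at h4
    rw [← hj]
    exact h4

end Pool.Agent.Time
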