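import Pool.Agent.Lib_helper16.Time.Dyck

/-!
The Dyck language with two kinds of brackets and a family of words in it, of the shape of a
balanced binary tree.
-/

set_option autoImplicit false

namespace Pool.Agent.Time

/-- Reading a bracket word with a stack. -/
def run : List Br → List Bool → Option (List Bool)
  | [], s => some s
  | (true, b) :: w, s => run w (b :: s)
  | (false, _) :: _, [] => none
  | (false, b) :: w, c :: s => if b = c then run w s else none

lemma run_append (u v : List Br) : ∀ s, run (u ++ v) s = (run u s).bind (run v) := by
  induction u with
  | nil => intro s; rfl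
  | cons a u ih =>
    intro s
    obtain ⟨a1, a2⟩ := a
    cases a1 with
    | true => exact ih _
    | false =>
      cases s with
      | nil => rfl
      | cons c s =>
        show (if a2 = c then run (u ++ v) s else none) =
          (if a2 = c then run u s else none).bind (run v)
        split_ifs
        · exact ih s
        · rfl

lemma IsDyck.run_eq {w : List Br} (h : IsDyck w) : ∀ s, run w s = some s := by
  induction h with
  | nil => intro s; rfl
  | @step u v b _ _ ih1 ih2 =>
    intro s
    show run (u ++ (false, b) :: v) (b :: s) = some s
    rw [run_append, ih1]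
    show (if b = b then run v s else none) = some s
    rw [if_pos rfl, ih2]

/-- Decomposition of a word which empties the stack. -/
def Split : List Br → List Bool → Prop
  | w, [] => IsDyck w
  | w, c :: s => ∃ u v, IsDyck u ∧ w = u ++ (false, c) :: v ∧ Split v s

lemma split_of_run (w : List Br) : ∀ s, run w s = some [] → Split w s := by
  induction w with
  | nil =>
    intro s h
    have h' : some s = some [] := h
    obtain rfl := Option.some.inj h'
    exact IsDyck.nil
  | cons a w ih =>
    intro s h
    obtain ⟨a1, b⟩ := a
    cases a1 with
    | true =>
      obtain ⟨u, v, h1, rfl, h2⟩ := ih (b :: s) h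
      cases s with
      | nil => exact IsDyck.step b h1 h2
      | cons c s =>
        obtain ⟨u', v', h3, rfl, h4⟩ := h2
        exact ⟨(true, b) :: (u ++ (false, b) :: u'), v', IsDyck.step b h1 h3, by simp, h4⟩
    | false =>
      cases s with
      | nil => exact absurd h (by simp [run])
      | cons c s =>
        have h' : (if b = c then run w s else none) = some [] := h
        split_ifs at h' with hb
        subst hb
        exact ⟨[], w, IsDyck.nil, rfl, ih s h'⟩

lemma isDyck_iff (w : List Br) : IsDyck w ↔ run w [] = some [] :=
  ⟨fun h => h.run_eq [], fun h => split_of_run w [] h⟩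

/-! ### The words -/

/-- Opening brackets of given kinds. -/
def opens (l : List Bool) : List Br := l.map fun b => (true, b)

/-- The closing brackets for `opens l`. -/
def closes (l : List Bool) : List Br := l.reverse.map fun b => (false, b)

lemma length_opens (l : List Bool) : (opens l).length = l.length := by simp [opens]

lemma length_closes (l : List Bool) : (closes l).length = l.length := by simp [closes]

lemma run_opens (l : List Bool) : ∀ s, run (opens l) s = some (l.reverse ++ s) := by
  induction l with
  | nil => intro s; rfl
  | cons b l ih =>
    intro s
    show run (opens l) (b :: s) = _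
    rw [ih]
    simp

lemma run_map_false (q : List Bool) : ∀ p s, q.length = p.length →
    run (q.map fun b => (false, b)) (p ++ s) = if q = p then some s else none := by
  induction q with
  | nil =>
    intro p s h
    have : p = [] := List.length_eq_zero_iff.1 h.symm
    subst this
    simp [run]
  | cons b q ih =>
    intro p s h
    cases p with
    | nil => simp at h
    | cons c p =>
      show (if b = c then run (q.map fun b => (false, b)) (p ++ s) else none) = _
      by_cases hb : b = c
      · subst hb
        rw [if_pos rfl, ih p s (by simpa using h)]
        simp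
      · rw [if_neg hb, if_neg (fun h => hb (List.cons.inj h).1)]

lemma run_closes {l l' : List Bool} (h : l.length = l'.length) (s : List Bool) :
    run (closes l) (l'.reverse ++ s) = if l = l' then some s else none := by
  unfold closes
  rw [run_map_false _ _ _ (by simpa using h)]
  simp only [List.reverse_inj]

/-- The word of height `h` whose opening brackets are given by `f` and whose closing brackets are
given by `g`; nodes of the binary tree are lists of Booleans. -/
def tw : ℕ → (List Bool → List Bool) → (List Bool → List Bool) → List Br
  | 0, f, g => opens (f []) ++ closes (g [])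
  | h + 1, f, g => opens (f []) ++ (tw h (fun π => f (false :: π)) (fun π => g (false :: π)) ++
      (tw h (fun π => f (true :: π)) (fun π => g (true :: π)) ++ closes (g [])))

/-- The lengths of the words. -/
def len (r : ℕ) : ℕ → ℕ
  | 0 => 2 * r
  | h + 1 => 2 * r + 2 * len r h

/-- The start of the part of a node. -/
def st (r : ℕ) : ℕ → List Bool → ℕ
  | _, [] => 0
  | 0, _ :: _ => 0
  | h + 1, b :: π => r + (if b then len r h else 0) + st r h π

lemma length_tw {r : ℕ} (h : ℕ) : ∀ f g : List Bool → List Bool, (∀ π, (f π).length = r) →
    (∀ π, (g π).length = r) → (tw h f g).length = len r h := by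
  induction h with
  | zero =>
    intro f g hf hg
    simp only [tw, List.length_append, length_opens, length_closes, hf, hg, len]
    ring
  | succ h ih =>
    intro f g hf hg
    simp only [tw, List.length_append, length_opens, length_closes, hf, hg, len]
    rw [ih _ _ (fun π => hf _) (fun π => hg _), ih _ _ (fun π => hf _) (fun π => hg _)]
    ring

lemma run_tw_self (h : ℕ) : ∀ (f : List Bool → List Bool) (s : List Bool),
    run (tw h f f) s = some s := by
  induction h with
  | zero =>
    intro f s
    show run (opens (f []) ++ closes (f [])) s = some s
    rw [run_append, run_opens]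
    show run (closes (f [])) ((f []).reverse ++ s) = some s
    rw [run_closes rfl, if_pos rfl]
  | succ h ih =>
    intro f s
    show run (opens (f []) ++ (_ ++ (_ ++ closes (f [])))) s = some s
    rw [run_append, run_opens]
    show run _ ((f []).reverse ++ s) = some s
    rw [run_append, ih]
    show run _ ((f []).reverse ++ s) = some s
    rw [run_append, ih]
    show run (closes (f [])) ((f []).reverse ++ s) = some s
    rw [run_closes rfl, if_pos rfl]

lemma run_tw {r : ℕ} (h : ℕ) : ∀ (f g : List Bool → List Bool) (s s' : List Bool),
    (∀ π, (f π).length = r) → (∀ π, (g π).length = r) → run (tw h f g) s = some s' →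
      s' = s ∧ ∀ π, π.length ≤ h → g π = f π := by
  induction h with
  | zero =>
    intro f g s s' hf hg hr
    have hr' : run (opens (f []) ++ closes (g [])) s = some s' := hr
    rw [run_append, run_opens] at hr'
    have hr2 : run (closes (g [])) ((f []).reverse ++ s) = some s' := hr'
    rw [run_closes (by rw [hf, hg])] at hr2
    split_ifs at hr2 with he
    refine ⟨(Option.some.inj hr2).symm, ?_⟩
    intro π hπ
    have : π = [] := List.length_eq_zero_iff.1 (Nat.le_zero.1 hπ)
    subst this
    exact he
  | succ h ih =>
    intro f g s s' hf hg hr
    have hr' : run (opens (f []) ++ (tw h (fun π => f (false :: π)) (fun π => g (false :: π)) ++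
      (tw h (fun π => f (true :: π)) (fun π => g (true :: π)) ++ closes (g [])))) s = some s' :=
      hr
    rw [run_append, run_opens] at hr'
    have hr2 : run (tw h (fun π => f (false :: π)) (fun π => g (false :: π)) ++
      (tw h (fun π => f (true :: π)) (fun π => g (true :: π)) ++ closes (g [])))
      ((f []).reverse ++ s) = some s' := hr'
    rw [run_append, Option.bind_eq_some_iff] at hr2
    obtain ⟨s1, e1, hr3⟩ := hr2
    obtain ⟨rfl, e2⟩ := ih _ _ _ _ (fun π => hf _) (fun π => hg _) e1
    rw [run_append, Option.bind_eq_some_iff] at hr3
    obtain ⟨s1, e3, hr4⟩ := hr3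
    obtain ⟨rfl, e4⟩ := ih _ _ _ _ (fun π => hf _) (fun π => hg _) e3
    rw [run_closes (by rw [hf, hg])] at hr4
    split_ifs at hr4 with he
    refine ⟨(Option.some.inj hr4).symm, ?_⟩
    intro π hπ
    cases π with
    | nil => exact he
    | cons b π =>
      cases b with
      | false => exact e2 π (by simpa using hπ)
      | true => exact e4 π (by simpa using hπ)

/-! ### Geometry -/

lemma st_le (r h : ℕ) : ∀ π : List Bool, π.length ≤ h →
    st r h π + len r (h - π.length) ≤ len r h := by
  induction h with
  | zero =>
    intro π hπ
    have : π = [] := List.length_eq_zero_iff.1 (Nat.le_zero.1 hπ)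
    subst this
    simp [st]
  | succ h ih =>
    intro π hπ
    cases π with
    | nil => simp [st]
    | cons b π =>
      have h1 := ih π (by simpa using hπ)
      have e : h + 1 - (b :: π).length = h - π.length := by
        rw [List.length_cons]; omega
      rw [e]
      show r + (if b then len r h else 0) + st r h π + len r (h - π.length) ≤
        2 * r + 2 * len r h
      cases b
      · simp only [Bool.false_eq_true, if_false]
        omega
      · simp only [if_true]
        omega

lemma st_sep (r h : ℕ) : ∀ π π' : List Bool, π ≠ π' → π.length = π'.length →
    π.length ≤ h → st r h π + len r (h - π.length) ≤ st r h π' ∨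
      st r h π' + len r (h - π.length) ≤ st r h π := by
  induction h with
  | zero =>
    intro π π' hne hl hπ
    have h1 : π = [] := List.length_eq_zero_iff.1 (Nat.le_zero.1 hπ)
    have h2 : π' = [] := List.length_eq_zero_iff.1 (by rw [← hl]; exact Nat.le_zero.1 hπ)
    exact absurd (h1.trans h2.symm) hne
  | succ h ih =>
    intro π π' hne hl hπ
    cases π with
    | nil =>
      have h2 : π' = [] := List.length_eq_zero_iff.1 hl.symm
      exact absurd h2.symm hne
    | cons b π =>
      cases π' with
      | nil => simp at hl
      | cons b' π' =>
        have e : h + 1 - (b :: π).length = h - π.length := by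
          rw [List.length_cons]; omega
        rw [e]
        have hl' : π.length = π'.length := by simpa using hl
        have hπ' : π.length ≤ h := by simpa using hπ
        have h1 := st_le r h π hπ'
        have h2 := st_le r h π' (by omega)
        rw [← hl'] at h2
        show r + (if b then len r h else 0) + st r h π + len r (h - π.length) ≤
            r + (if b' then len r h else 0) + st r h π' ∨
          r + (if b' then len r h else 0) + st r h π' + len r (h - π.length) ≤
            r + (if b then len r h else 0) + st r h π
        cases b <;> cases b'
        · have h3 := ih π π' (fun h => hne (by rw [h])) hl' hπ'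
          simp only [Bool.false_eq_true, if_false]
          omega
        · left
          simp only [Bool.false_eq_true, if_false, if_true]
          omega
        · right
          simp only [Bool.false_eq_true, if_false, if_true]
          omega
        · have h3 := ih π π' (fun h => hne (by rw [h])) hl' hπ'
          simp only [if_true]
          omega

/-! ### Differences -/

/-- The positions at which two words differ satisfy `P`. -/
def Diff (u u' : List Br) (P : ℕ → Prop) : Prop := ∀ q, u[q]? ≠ u'[q]? → P q

lemma Diff.refl (u : List Br) (P : ℕ → Prop) : Diff u u P := fun _ h => absurd rfl h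

lemma Diff.mono {u u' : List Br} {P Q : ℕ → Prop} (h : Diff u u' P) (hPQ : ∀ q, P q → Q q) :
    Diff u u' Q := fun q hq => hPQ q (h q hq)

lemma Diff.append {u u' v v' : List Br} {P Q : ℕ → Prop} (h : u.length = u'.length)
    (hu : Diff u u' P) (hv : Diff v v' Q) :
    Diff (u ++ v) (u' ++ v') (fun q => P q ∨ ∃ q', q = u.length + q' ∧ Q q') := by
  intro q hq
  rw [List.getElem?_append, List.getElem?_append, ← h] at hq
  split_ifs at hq with h1
  · exact Or.inl (hu q hq)
  · exact Or.inr ⟨q - u.length, by omega, hv _ hq⟩

lemma diff_opens {l l' : List Bool} {r : ℕ} (h : l.length = r) (h' : l'.length = r) :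
    Diff (opens l) (opens l') (fun q => ∃ i < r, l[i]? ≠ l'[i]? ∧ q = i) := by
  intro q hq
  simp only [opens, List.getElem?_map] at hq
  have h1 : l[q]? ≠ l'[q]? := fun h => hq (by rw [h])
  refine ⟨q, ?_, h1, rfl⟩
  by_contra h2
  apply h1
  rw [List.getElem?_eq_none (by omega), List.getElem?_eq_none (by omega)]

lemma diff_closes {l l' : List Bool} {r : ℕ} (h : l.length = r) (h' : l'.length = r) :
    Diff (closes l) (closes l') (fun q => ∃ i < r, l[i]? ≠ l'[i]? ∧ q + 1 + i = r) := by
  intro q hq
  simp only [closes, List.getElem?_map] at hq
  have h1 : l.reverse[q]? ≠ l'.reverse[q]? := fun h => hq (by rw [h])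
  have h2 : q < r := by
    by_contra h2
    apply h1
    rw [List.getElem?_eq_none (by rw [List.length_reverse]; omega),
      List.getElem?_eq_none (by rw [List.length_reverse]; omega)]
  rw [List.getElem?_reverse (by omega), List.getElem?_reverse (by omega), h, h'] at h1
  exact ⟨r - 1 - q, by omega, h1, by omega⟩

lemma diff_tw_close {r : ℕ} (h : ℕ) : ∀ (f g g' : List Bool → List Bool) (π0 : List Bool),
    (∀ π, (f π).length = r) → (∀ π, (g π).length = r) → (∀ π, (g' π).length = r) →
    (∀ π, π ≠ π0 → g π = g' π) → π0.length ≤ h →
    Diff (tw h f g) (tw h f g') (fun q => ∃ i < r, (g π0)[i]? ≠ (g' π0)[i]? ∧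
      q + 1 + i = st r h π0 + len r (h - π0.length)) := by
  induction h with
  | zero =>
    intro f g g' π0 hf hg hg' hne hπ
    have h1 : π0 = [] := List.length_eq_zero_iff.1 (Nat.le_zero.1 hπ)
    subst h1
    refine ((Diff.refl (opens (f [])) (fun _ => False)).append rfl
      (diff_closes (hg []) (hg' []))).mono ?_
    rintro q (h | ⟨q', rfl, i, hi, h2, h3⟩)
    · exact h.elim
    · refine ⟨i, hi, h2, ?_⟩
      rw [length_opens, hf]
      show r + q' + 1 + i = 0 + 2 * r
      omega
  | succ h ih =>
    intro f g g' π0 hf hg hg' hne hπ
    cases π0 with
    | nil =>
      have e1 : (fun π => g (false :: π)) = fun π => g' (false :: π) :=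
        funext fun π => hne _ (by simp)
      have e2 : (fun π => g (true :: π)) = fun π => g' (true :: π) :=
        funext fun π => hne _ (by simp)
      show Diff (opens (f []) ++ (_ ++ (_ ++ closes (g [])))) (opens (f []) ++
        (_ ++ (_ ++ closes (g' [])))) _
      rw [e1, e2]
      refine ((Diff.refl (opens (f [])) (fun _ => False)).append rfl
        ((Diff.refl _ (fun _ => False)).append rfl
          ((Diff.refl _ (fun _ => False)).append rfl
            (diff_closes (hg []) (hg' []))))).mono ?_
      rintro q (h | ⟨q', rfl, h | ⟨q', rfl, h | ⟨q', rfl, i, hi, h2, h3⟩⟩⟩)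
      · exact h.elim
      · exact h.elim
      · exact h.elim
      · refine ⟨i, hi, h2, ?_⟩
        rw [length_opens, hf, length_tw h _ _ (fun π => hf _) (fun π => hg' _),
          length_tw h _ _ (fun π => hf _) (fun π => hg' _)]
        show r + (len r h + (len r h + q')) + 1 + i = 0 + (2 * r + 2 * len r h)
        omega
    | cons b π0 =>
      have hnil : g [] = g' [] := hne [] (by simp)
      have e : h + 1 - (b :: π0).length = h - π0.length := by
        rw [List.length_cons]; omega
      have hπ' : π0.length ≤ h := by simpa using hπ
      cases b with
      | false =>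
        have e2 : (fun π => g (true :: π)) = fun π => g' (true :: π) :=
          funext fun π => hne _ (by simp)
        have h1 := ih (fun π => f (false :: π)) (fun π => g (false :: π))
          (fun π => g' (false :: π)) π0 (fun π => hf _) (fun π => hg _) (fun π => hg' _)
          (fun π hp => hne _ (by simpa using hp)) hπ'
        show Diff (opens (f []) ++ (_ ++ (_ ++ closes (g [])))) (opens (f []) ++
          (_ ++ (_ ++ closes (g' [])))) _
        rw [e2, hnil]
        refine ((Diff.refl (opens (f [])) (fun _ => False)).append rfl
          (h1.append (by
            rw [length_tw h _ _ (fun π => hf _) (fun π => hg _),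
              length_tw h _ _ (fun π => hf _) (fun π => hg' _)])
            (Diff.refl _ (fun _ => False)))).mono ?_
        rintro q (h | ⟨q', rfl, ⟨i, hi, h2, h3⟩ | ⟨q', rfl, h⟩⟩)
        · exact h.elim
        · refine ⟨i, hi, h2, ?_⟩
          rw [length_opens, hf, e]
          show r + q' + 1 + i = r + 0 + st r h π0 + len r (h - π0.length)
          omega
        · exact h.elim
      | true =>
        have e1 : (fun π => g (false :: π)) = fun π => g' (false :: π) :=
          funext fun π => hne _ (by simp)
        have h1 := ih (fun π => f (true :: π)) (fun π => g (true :: π))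
          (fun π => g' (true :: π)) π0 (fun π => hf _) (fun π => hg _) (fun π => hg' _)
          (fun π hp => hne _ (by simpa using hp)) hπ'
        show Diff (opens (f []) ++ (_ ++ (_ ++ closes (g [])))) (opens (f []) ++
          (_ ++ (_ ++ closes (g' [])))) _
        rw [e1, hnil]
        refine ((Diff.refl (opens (f [])) (fun _ => False)).append rfl
          ((Diff.refl _ (fun _ => False)).append rfl
            (h1.append (by
              rw [length_tw h _ _ (fun π => hf _) (fun π => hg _),
                length_tw h _ _ (fun π => hf _) (fun π => hg' _)])
              (Diff.refl _ (fun _ => False))))).mono ?_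
        rintro q (h | ⟨q', rfl, h | ⟨q', rfl, ⟨i, hi, h2, h3⟩ | ⟨q', rfl, h⟩⟩⟩)
        · exact h.elim
        · exact h.elim
        · refine ⟨i, hi, h2, ?_⟩
          rw [length_opens, hf, length_tw h _ _ (fun π => hf _) (fun π => hg' _), e]
          show r + (len r h + q') + 1 + i = r + len r h + st r h π0 + len r (h - π0.length)
          omega
        · exact h.elim

lemma diff_tw_open {r : ℕ} (h : ℕ) : ∀ (f f' g : List Bool → List Bool) (π0 : List Bool),
    (∀ π, (f π).length = r) → (∀ π, (f' π).length = r) → (∀ π, (g π).length = r) →
    (∀ π, π ≠ π0 → f π = f' π) → π0.length ≤ h →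
    Diff (tw h f g) (tw h f' g) (fun q => ∃ i < r, (f π0)[i]? ≠ (f' π0)[i]? ∧
      q = st r h π0 + i) := by
  induction h with
  | zero =>
    intro f f' g π0 hf hf' hg hne hπ
    have h1 : π0 = [] := List.length_eq_zero_iff.1 (Nat.le_zero.1 hπ)
    subst h1
    refine ((diff_opens (hf []) (hf' [])).append (by rw [length_opens, length_opens, hf, hf'])
      (Diff.refl (closes (g [])) (fun _ => False))).mono ?_
    rintro q (⟨i, hi, h2, rfl⟩ | ⟨q', rfl, h⟩)
    · refine ⟨q, hi, h2, ?_⟩
      show q = 0 + q
      omega
    · exact h.elim
  | succ h ih =>
    intro f f' g π0 hf hf' hg hne hπ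
    cases π0 with
    | nil =>
      have e1 : (fun π => f (false :: π)) = fun π => f' (false :: π) :=
        funext fun π => hne _ (by simp)
      have e2 : (fun π => f (true :: π)) = fun π => f' (true :: π) :=
        funext fun π => hne _ (by simp)
      show Diff (opens (f []) ++ (_ ++ (_ ++ closes (g [])))) (opens (f' []) ++
        (_ ++ (_ ++ closes (g [])))) _
      rw [e1, e2]
      refine ((diff_opens (hf []) (hf' [])).append
        (by rw [length_opens, length_opens, hf, hf']) (Diff.refl _ (fun _ => False))).mono ?_
      rintro q (⟨i, hi, h2, rfl⟩ | ⟨q', rfl, h⟩)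
      · refine ⟨q, hi, h2, ?_⟩
        show q = 0 + q
        omega
      · exact h.elim
    | cons b π0 =>
      have hnil : f [] = f' [] := hne [] (by simp)
      have hπ' : π0.length ≤ h := by simpa using hπ
      cases b with
      | false =>
        have e2 : (fun π => f (true :: π)) = fun π => f' (true :: π) :=
          funext fun π => hne _ (by simp)
        have h1 := ih (fun π => f (false :: π)) (fun π => f' (false :: π))
          (fun π => g (false :: π)) π0 (fun π => hf _) (fun π => hf' _) (fun π => hg _)
          (fun π hp => hne _ (by simpa using hp)) hπ'
        show Diff (opens (f []) ++ (_ ++ (_ ++ closes (g [])))) (opens (f' []) ++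
          (_ ++ (_ ++ closes (g [])))) _
        rw [e2, hnil]
        refine ((Diff.refl (opens (f' [])) (fun _ => False)).append rfl
          (h1.append (by
            rw [length_tw h _ _ (fun π => hf _) (fun π => hg _),
              length_tw h _ _ (fun π => hf' _) (fun π => hg _)])
            (Diff.refl _ (fun _ => False)))).mono ?_
        rintro q (h | ⟨q', rfl, ⟨i, hi, h2, rfl⟩ | ⟨q', rfl, h⟩⟩)
        · exact h.elim
        · refine ⟨i, hi, h2, ?_⟩
          rw [length_opens, hf']
          show r + (st r h π0 + i) = r + 0 + st r h π0 + i
          omega
        · exact h.elim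
      | true =>
        have e1 : (fun π => f (false :: π)) = fun π => f' (false :: π) :=
          funext fun π => hne _ (by simp)
        have h1 := ih (fun π => f (true :: π)) (fun π => f' (true :: π))
          (fun π => g (true :: π)) π0 (fun π => hf _) (fun π => hf' _) (fun π => hg _)
          (fun π hp => hne _ (by simpa using hp)) hπ'
        show Diff (opens (f []) ++ (_ ++ (_ ++ closes (g [])))) (opens (f' []) ++
          (_ ++ (_ ++ closes (g [])))) _
        rw [e1, hnil]
        refine ((Diff.refl (opens (f' [])) (fun _ => False)).append rfl
          ((Diff.refl _ (fun _ => False)).append rfl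
            (h1.append (by
              rw [length_tw h _ _ (fun π => hf _) (fun π => hg _),
                length_tw h _ _ (fun π => hf' _) (fun π => hg _)])
              (Diff.refl _ (fun _ => False))))).mono ?_
        rintro q (h | ⟨q', rfl, h | ⟨q', rfl, ⟨i, hi, h2, rfl⟩ | ⟨q', rfl, h⟩⟩⟩)
        · exact h.elim
        · exact h.elim
        · refine ⟨i, hi, h2, ?_⟩
          rw [length_opens, hf', length_tw h _ _ (fun π => hf' _) (fun π => hg _)]
          show r + (len r h + (st r h π0 + i)) = r + len r h + st r h π0 + i
          omega
        · exact h.elim

end Pool.Agent.Time
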