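import Pool.Agent.Lib_helper16.Time.Paste
import Pool.Agent.Lib_helper16.Time.Word

/-!
The lower bound for fixed parameters.
-/

set_option autoImplicit false

namespace Pool.Agent.Time

open Pool.Agent.Heads

/-! ### Lengths -/

lemma len_eq (r h : ℕ) : len r h + 2 * r = r * 2 ^ (h + 2) := by
  induction h with
  | zero => show 2 * r + 2 * r = r * 4; ring
  | succ h ih =>
    show 2 * r + 2 * len r h + 2 * r = _
    have : r * 2 ^ (h + 1 + 2) = 2 * (r * 2 ^ (h + 2)) := by ring
    rw [this, ← ih]
    ring

lemma len_scale (r : ℕ) {h h' : ℕ} (hh : h < h') : 2 * len r h ≤ len r h' := by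
  have key : ∀ d, 2 * len r h ≤ len r (h + 1 + d) := by
    intro d
    induction d with
    | zero => show 2 * len r h ≤ 2 * r + 2 * len r h; omega
    | succ d ih =>
      have : len r (h + 1 + (d + 1)) = 2 * r + 2 * len r (h + 1 + d) := rfl
      omega
  obtain ⟨d, rfl⟩ : ∃ d, h' = h + 1 + d := ⟨h' - (h + 1), by omega⟩
  exact key d

lemma len_pos {r : ℕ} (hr : 0 < r) (h : ℕ) : 0 < len r h := by
  cases h with
  | zero => show 0 < 2 * r; omega
  | succ h => show 0 < 2 * r + 2 * len r h; omega

lemma len_lt {r : ℕ} (hr : 0 < r) {h h' : ℕ} (hh : h < h') : len r h < len r h' := by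
  have := len_scale r hh
  have := len_pos hr h
  omega

/-! ### The pigeonhole principle -/

lemma pigeon {V B K : Type} [Fintype V] [DecidableEq V] [Fintype B] [Fintype K]
    (F : (V → B) → V × K) (h : Fintype.card V * Fintype.card K < Fintype.card B) :
    ∃ f f', f ≠ f' ∧ F f = F f' ∧ ∀ v, v ≠ (F f).1 → f v = f' v := by
  classical
  by_contra hcon
  push Not at hcon
  have hinj : Function.Injective (fun p : (V → B) × B =>
      ((F p.1, Function.update p.1 (F p.1).1 p.2) : (V × K) × (V → B))) := by
    rintro ⟨f, b⟩ ⟨f', b'⟩ he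
    obtain ⟨h1, h2⟩ := Prod.mk.inj he
    simp only at h1 h2
    rw [← h1] at h2
    have hb : b = b' := by
      have := congrFun h2 (F f).1
      simpa using this
    have hoff : ∀ v, v ≠ (F f).1 → f v = f' v := by
      intro v hv
      have := congrFun h2 v
      simpa [Function.update_of_ne hv] using this
    by_cases hff : f = f'
    · rw [hff, hb]
    · obtain ⟨v, hv, hv'⟩ := hcon f f' hff h1
      exact absurd (hoff v hv) hv'
  have hcard := Fintype.card_le_of_injective _ hinj
  rw [Fintype.card_prod, Fintype.card_prod, Fintype.card_prod] at hcard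
  have hB : 0 < Fintype.card B := by omega
  have : Nonempty B := Fintype.card_pos_iff.1 hB
  have hpos : 0 < Fintype.card (V → B) := Fintype.card_pos
  rw [mul_comm (Fintype.card V * Fintype.card K)] at hcard
  have := Nat.le_of_mul_le_mul_left hcard hpos
  omega

/-! ### The labels -/

/-- The label with middle part `u`. -/
def lab (m : ℕ) (u : Fin m → Bool) : List Bool :=
  List.replicate m false ++ (List.ofFn u ++ List.replicate m false)

lemma length_lab (m : ℕ) (u : Fin m → Bool) : (lab m u).length = 3 * m := by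
  simp [lab]; ring

lemma lab_ne {m : ℕ} {u u' : Fin m → Bool} {i : ℕ} (h : (lab m u)[i]? ≠ (lab m u')[i]?) :
    m ≤ i ∧ i < 2 * m := by
  unfold lab at h
  rw [List.getElem?_append, List.getElem?_append, List.getElem?_append,
    List.getElem?_append] at h
  simp only [List.length_replicate, List.length_ofFn] at h
  split_ifs at h with h1 h2
  · exact absurd rfl h
  · omega
  · exact absurd rfl h

lemma lab_inj {m : ℕ} {u u' : Fin m → Bool} (h : lab m u = lab m u') : u = u' := by
  unfold lab at h
  have h1 := List.append_cancel_left h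
  have h2 := List.append_cancel_right h1
  exact List.ofFn_injective h2

/-- Padding. -/
def pad : ℕ → List Br
  | 0 => []
  | j + 1 => (true, false) :: (false, false) :: pad j

lemma length_pad (j : ℕ) : (pad j).length = 2 * j := by
  induction j with
  | zero => rfl
  | succ j ih => simp only [pad, List.length_cons, ih]; ring

lemma run_pad (j : ℕ) : ∀ s, run (pad j) s = some s := by
  induction j with
  | zero => intro s; rfl
  | succ j ih =>
    intro s
    show (if false = false then run (pad j) s else none) = some s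
    rw [if_pos rfl, ih]

/-- Nodes of depth at most `D`. -/
abbrev Nd (D : ℕ) : Type := {π : List Bool // π.length ≤ D}

noncomputable instance (D : ℕ) : Fintype (Nd D) := (List.finite_length_le Bool D).fintype

/-- The labelling of the tree given by the middle parts. -/
def Lb (D m : ℕ) (f : Nd D → Fin m → Bool) (π : List Bool) : List Bool :=
  if h : π.length ≤ D then lab m (f ⟨π, h⟩) else lab m (fun _ => false)

lemma length_Lb (D m : ℕ) (f : Nd D → Fin m → Bool) (π : List Bool) :
    (Lb D m f π).length = 3 * m := by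
  unfold Lb
  split_ifs <;> exact length_lab _ _

/-! ### Sums over the nodes -/

lemma sum_nodes (D m S : ℕ) (hS : D + 1 ≤ S) :
    (D + 1) * (m * 2 ^ (S - 1)) ≤ ∑ v : Nd D, m * 2 ^ (S - v.1.length - 1) := by
  classical
  let e : (Σ d : Fin (D + 1), (Fin d → Bool)) → Nd D := fun s =>
    ⟨List.ofFn s.2, by rw [List.length_ofFn]; omega⟩
  have he : Function.Injective e := by
    rintro ⟨d, f⟩ ⟨d', f'⟩ h
    have h1 : List.ofFn f = List.ofFn f' := congrArg Subtype.val h
    have h2 : (d : ℕ) = d' := by
      have := congrArg List.length h1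
      simpa using this
    obtain rfl : d = d' := Fin.ext h2
    rw [List.ofFn_injective h1]
  have h1 : ∑ s : (Σ d : Fin (D + 1), (Fin d → Bool)), m * 2 ^ (S - (e s).1.length - 1) ≤
      ∑ v : Nd D, m * 2 ^ (S - v.1.length - 1) := by
    rw [← Finset.sum_image (f := fun v : Nd D => m * 2 ^ (S - v.1.length - 1))
      (s := Finset.univ) (g := e) (fun a _ b _ h => he h)]
    exact Finset.sum_le_sum_of_subset (Finset.subset_univ _)
  refine le_trans (le_of_eq ?_) h1
  rw [Fintype.sum_sigma]
  have h2 : ∀ d : Fin (D + 1), (∑ f : Fin d → Bool,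
      m * 2 ^ (S - (e ⟨d, f⟩).1.length - 1)) = m * 2 ^ (S - 1) := by
    intro d
    have h3 : ∀ f : Fin d → Bool, (e ⟨d, f⟩).1.length = d := fun f => List.length_ofFn
    simp only [h3]
    rw [Finset.sum_const, Finset.card_univ, Fintype.card_fun, Fintype.card_bool,
      Fintype.card_fin, smul_eq_mul]
    have h4 : S - 1 = d + (S - d - 1) := by omega
    rw [h4, pow_add]
    ring
  rw [Finset.sum_congr rfl (fun d _ => h2 d), Finset.sum_const, Finset.card_univ,
    Fintype.card_fin, smul_eq_mul]

lemma card_nodes (D : ℕ) : Fintype.card (Nd D) ≤ 2 ^ (D + 1) := by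
  classical
  let e : Nd D → (Fin (D + 1) → Bool) := fun v =>
    fun i => (v.1 ++ [true])[i.1]?.getD false
  have he : Function.Injective e := by
    rintro ⟨π, hπ⟩ ⟨π', hπ'⟩ h
    -- the last `true` marks the end
    have key : ∀ l l' : List Bool, l.length ≤ D → l'.length ≤ D →
        (∀ i < D + 1, (l ++ [true])[i]?.getD false = (l' ++ [true])[i]?.getD false) →
        l.length ≤ l'.length := by
      intro l l' hl hl' hh
      by_contra hlt
      push Not at hlt
      have h1 := hh l.length (by omega)
      have h2 : (l' ++ [true])[l.length]? = none :=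
        List.getElem?_eq_none (by rw [List.length_append]; simp only [List.length_singleton]; omega)
      have h3 : (l ++ [true])[l.length]? = some true := by simp
      rw [h2, h3] at h1
      simp at h1
    have hh : ∀ i < D + 1, (π ++ [true])[i]?.getD false = (π' ++ [true])[i]?.getD false :=
      fun i hi => congrFun h ⟨i, hi⟩
    have hl : π.length = π'.length := le_antisymm (key _ _ hπ hπ' hh)
      (key _ _ hπ' hπ (fun i hi => (hh i hi).symm))
    refine Subtype.ext (List.ext_getElem hl ?_)
    intro i h1 h2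
    have h1' : i < π.length := h1
    have h3 := hh i (by omega)
    rw [List.getElem?_append_left h1, List.getElem?_append_left h2,
      List.getElem?_eq_getElem h1, List.getElem?_eq_getElem h2] at h3
    simpa using h3
  refine (Fintype.card_le_of_injective e he).trans (le_of_eq ?_)
  rw [Fintype.card_fun, Fintype.card_bool, Fintype.card_fin]

/-! ### Runs and codes -/

lemma exists_run {B : Type} {R : B → B → Prop} {a b : B} {t : ℕ} (h : ReachN R a t b) :
    ∃ r : ℕ → B, r 0 = a ∧ (∀ s, t ≤ s → r s = b) ∧ ∀ s < t, R (r s) (r (s + 1)) := by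
  induction h with
  | zero => exact ⟨fun _ => a, rfl, fun _ _ => rfl, fun s hs => absurd hs (Nat.not_lt_zero s)⟩
  | @succ t b c _ hs ih =>
    obtain ⟨r, h1, h2, h3⟩ := ih
    refine ⟨fun s => if s ≤ t then r s else c, ?_, ?_, ?_⟩
    · simp only [Nat.zero_le, if_true]
      exact h1
    · intro s hst
      simp only [if_neg (show ¬ s ≤ t by omega)]
    · intro s hst
      rcases Nat.lt_or_ge s t with h | h
      · simp only [if_pos (show s ≤ t by omega), if_pos (show s + 1 ≤ t by omega)]
        exact h3 s h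
      · have : s = t := by omega
        subst this
        simp only [le_refl, if_true, if_neg (show ¬ s + 1 ≤ s by omega)]
        rw [h2 s le_rfl]
        exact hs

/-- Bounded configurations. -/
abbrev Cb {α : Type} {k : ℕ} (A : FA α k) (N : ℕ) : Type := A.Q × (Fin k → Fin (N + 1))

/-- The bounded version of a configuration. -/
def enc {α : Type} {k : ℕ} {A : FA α k} (N : ℕ) (c : Cf A) : Cb A N :=
  (c.1, fun a => ⟨min (c.2 a) N, by omega⟩)

lemma enc_inj {α : Type} {k : ℕ} {A : FA α k} {N : ℕ} {c c' : Cf A} (hc : ∀ a, c.2 a ≤ N)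
    (hc' : ∀ a, c'.2 a ≤ N) (h : enc N c = enc N c') : c = c' := by
  obtain ⟨h1, h2⟩ := Prod.mk.inj h
  refine Prod.ext h1 (funext fun a => ?_)
  have h3 := congrArg Fin.val (congrFun h2 a)
  simp only at h3
  have := hc a
  have := hc' a
  omega

/-- The code of a list of steps. -/
def code {α : Type} {k : ℕ} {A : FA α k} (N E : ℕ) (l : List (Cf A × Cf A)) :
    Fin E → Option (Cb A N × Cb A N) :=
  fun i => (l[i.1]?).map fun x => (enc N x.1, enc N x.2)

lemma code_inj {α : Type} {k : ℕ} {A : FA α k} {N E : ℕ} {l l' : List (Cf A × Cf A)}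
    (hl : l.length ≤ E) (hl' : l'.length ≤ E)
    (hb : ∀ x ∈ l, (∀ a, x.1.2 a ≤ N) ∧ ∀ a, x.2.2 a ≤ N)
    (hb' : ∀ x ∈ l', (∀ a, x.1.2 a ≤ N) ∧ ∀ a, x.2.2 a ≤ N)
    (h : code N E l = code N E l') : l = l' := by
  refine List.ext_getElem? (fun i => ?_)
  rcases Nat.lt_or_ge i E with hi | hi
  · have h1 := congrFun h ⟨i, hi⟩
    unfold code at h1
    simp only at h1
    cases e1 : l[i]? with
    | none =>
      cases e2 : l'[i]? with
      | none => rfl
      | some x' =>
        rw [e1, e2] at h1
        simp at h1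
    | some x =>
      cases e2 : l'[i]? with
      | none =>
        rw [e1, e2] at h1
        simp at h1
      | some x' =>
        rw [e1, e2] at h1
        simp only [Option.map_some] at h1
        obtain ⟨h2, h3⟩ := Prod.mk.inj (Option.some.inj h1)
        have m1 := List.mem_of_getElem? e1
        have m2 := List.mem_of_getElem? e2
        rw [Prod.ext (enc_inj (hb x m1).1 (hb' x' m2).1 h2)
          (enc_inj (hb x m1).2 (hb' x' m2).2 h3)]
  · rw [List.getElem?_eq_none (by omega), List.getElem?_eq_none (by omega)]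

lemma tape_ne {α : Type} {w y : List α} {p : ℕ} (h : tape w p ≠ tape y p) :
    ∃ q, p = q + 1 ∧ w[q]? ≠ y[q]? := by
  cases p with
  | zero => exact absurd rfl h
  | succ q =>
    refine ⟨q, rfl, fun he => h ?_⟩
    simp only [tape, he]

/-! ### The main lemma -/

/-- Node `v` of the tree is not seen by the heads. -/
def Unseen {k : ℕ} {A : FA Br k} (p L r : ℕ) (c : Cf A) : Prop :=
  ¬ ∃ a b, p ≤ c.2 a ∧ c.2 a < p + r ∧ p + L ≤ c.2 b + r ∧ c.2 b < p + L

lemma key {k : ℕ} (A : FA Br k) (S m j T D : ℕ) (hD : D + 3 = S) (hm : 0 < m)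
    (htime : ∀ w : List Br, w.length = len (3 * m) S + 2 * j → IsDyck w →
      ∃ t ≤ T, ∃ c, ReachN (A.Step w) (A.start, fun _ => 0) t c ∧ c.1 ∈ A.accept)
    (h1 : k * k * (T + m * 2 ^ (S - 1) + 1) < (D + 1) * (m * 2 ^ (S - 1)))
    (f : Nd D → Fin m → Bool) :
    ∃ (v : Nd D) (i : Fin m) (l : List (Cf A × Cf A)),
      Pat A (tw S (Lb D m f) (Lb D m f) ++ pad j)
        (Unseen (st (3 * m) S v.1 + 1) (len (3 * m) (S - v.1.length)) (3 * m))
        (inSeg (st (3 * m) S v.1 + 1 + len (3 * m) (S - v.1.length) - 3 * m + i)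
          (st (3 * m) S v.1 + 1 + len (3 * m) (S - v.1.length) - i))
        (A.start, fun _ => 0) l ∧ l.length ≤ 2 * k * T / m ∧
      ∀ x ∈ l, (∀ a, x.1.2 a ≤ len (3 * m) S + 2 * j + 1) ∧
        ∀ a, x.2.2 a ≤ len (3 * m) S + 2 * j + 1 := by
  set w : List Br := tw S (Lb D m f) (Lb D m f) ++ pad j with hw
  have hlen : w.length = len (3 * m) S + 2 * j := by
    rw [hw, List.length_append, length_tw S _ _ (length_Lb D m f) (length_Lb D m f), length_pad]
  have hdyck : IsDyck w := by
    rw [isDyck_iff, hw, run_append, run_tw_self]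
    exact run_pad j []
  obtain ⟨t, ht, c, hc, hacc⟩ := htime w hlen hdyck
  obtain ⟨r, hr0, hrt, hrs⟩ := exists_run hc
  -- the trajectories
  have hmove : ∀ N p (d : Dir), p ≤ N → move N p d ≤ p + 1 ∧ p ≤ move N p d + 1 := by
    intro N p d hp
    cases d <;> simp only [move] <;> omega
  have hbd : ∀ s a, (r s).2 a ≤ w.length + 1 := by
    intro s
    induction s with
    | zero => intro a; rw [hr0]; exact Nat.zero_le _
    | succ s ih =>
      intro a
      rcases Nat.lt_or_ge s t with h | h
      · obtain ⟨tr, -, he⟩ := hrs s h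
        rw [he]
        exact move_le _ _ _ (ih a)
      · rw [hrt (s + 1) (by omega), ← hrt s h]
        exact ih a
  have hlip : ∀ a, Lip (fun s => (r s).2 a) := by
    intro a s
    rcases Nat.lt_or_ge s t with h | h
    · obtain ⟨tr, -, he⟩ := hrs s h
      simp only
      rw [he]
      exact hmove _ _ _ (hbd s a)
    · simp only
      rw [hrt (s + 1) (by omega), hrt s h]
      omega
  -- an unseen node
  have hlen3 : ∀ v : Nd D, 16 * (3 * m) ≤ len (3 * m) (S - v.1.length) := by
    intro v
    have hv := v.2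
    have h2 : 3 ≤ S - v.1.length := by omega
    have h3 := len_eq (3 * m) (S - v.1.length)
    have h4 : 2 ^ 5 ≤ 2 ^ (S - v.1.length + 2) := Nat.pow_le_pow_right (by omega) (by omega)
    have h5 : 3 * m * 2 ^ 5 ≤ 3 * m * 2 ^ (S - v.1.length + 2) := Nat.mul_le_mul_left _ h4
    omega
  obtain ⟨v, hv⟩ := uncovered (k := k) (T := t) (r := 3 * m) (W := m * 2 ^ (S - 1))
    (fun a s => (r s).2 a) hlip (V := Nd D) (fun v => st (3 * m) S v.1 + 1)
    (fun v => len (3 * m) (S - v.1.length)) (fun v => m * 2 ^ (S - v.1.length - 1)) hlen3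
    (by
      intro v
      have hv := v.2
      have h3 := len_eq (3 * m) (S - v.1.length)
      have h4 : 2 ^ (S - v.1.length + 2) = 8 * 2 ^ (S - v.1.length - 1) := by
        have : S - v.1.length + 2 = (S - v.1.length - 1) + 3 := by omega
        rw [this, pow_add]
        ring
      rw [h4] at h3
      have h5 : 2 ^ 1 ≤ 2 ^ (S - v.1.length - 1) := Nat.pow_le_pow_right (by omega) (by omega)
      have h6 : m * 2 ^ 1 ≤ m * 2 ^ (S - v.1.length - 1) := Nat.mul_le_mul_left _ h5
      have h7 : 3 * m * (8 * 2 ^ (S - v.1.length - 1)) =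
        24 * (m * 2 ^ (S - v.1.length - 1)) := by ring
      rw [h7] at h3
      show 16 * (m * 2 ^ (S - v.1.length - 1)) ≤ len (3 * m) (S - v.1.length)
      omega)
    (by
      intro v
      exact Nat.mul_le_mul_left _ (Nat.pow_le_pow_right (by omega) (by omega)))
    (by
      intro v v' hne hL
      have hv := v.2
      have hv' := v'.2
      have hlv : v.1.length = v'.1.length := by
        rcases Nat.lt_trichotomy (S - v.1.length) (S - v'.1.length) with h | h | h
        · exact absurd hL (by have := len_lt (r := 3 * m) (by omega) h; omega)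
        · omega
        · exact absurd hL (by have := len_lt (r := 3 * m) (by omega) h; omega)
      have h3 := st_sep (3 * m) S v.1 v'.1 (fun h => hne (Subtype.ext h)) hlv (by omega)
      rw [← hlv]
      omega)
    (by
      intro v v'
      rcases Nat.lt_trichotomy (S - v.1.length) (S - v'.1.length) with h | h | h
      · exact Or.inr (Or.inl (len_scale _ h))
      · exact Or.inl (by rw [h])
      · exact Or.inr (Or.inr (len_scale _ h)))
    (by
      have h3 := sum_nodes D m S (by omega)
      have h4 : k * k * (t + m * 2 ^ (S - 1) + 1) ≤ k * k * (T + m * 2 ^ (S - 1) + 1) :=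
        Nat.mul_le_mul_left _ (by omega)
      exact lt_of_lt_of_le (lt_of_le_of_lt h4 h1) h3)
  -- a good cut
  obtain ⟨i, hi, hcut⟩ := exists_cut (A := A) (r := r) (T := t) (m := m)
    (s := st (3 * m) S v.1 + 1 + len (3 * m) (S - v.1.length) - 3 * m)
    (e := st (3 * m) S v.1 + 1 + len (3 * m) (S - v.1.length)) hm
    (fun s _ a => hlip a s)
  obtain ⟨l, hl1, hl2, hl3⟩ := pat_of_run (A := A) (w := w)
    (G := Unseen (st (3 * m) S v.1 + 1) (len (3 * m) (S - v.1.length)) (3 * m))
    (J := inSeg (st (3 * m) S v.1 + 1 + len (3 * m) (S - v.1.length) - 3 * m + i)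
          (st (3 * m) S v.1 + 1 + len (3 * m) (S - v.1.length) - i)) (r := r) (T := t) hrs
    (by
      rintro s hs ⟨a, b, h2⟩
      exact hv s hs a b h2)
    (by rw [hrt t le_rfl]; exact hacc) t 0 (by omega)
  refine ⟨v, ⟨i, hi⟩, l, ?_, ?_, ?_⟩
  · rw [hr0] at hl1
    exact hl1
  · rw [Nat.le_div_iff_mul_le hm]
    refine le_trans ?_ (Nat.mul_le_mul_left (2 * k) ht)
    refine le_trans ?_ hcut
    rw [mul_comm]
    exact Nat.mul_le_mul_left _ hl2
  · intro x hx
    obtain ⟨s, hs, rfl⟩ := hl3 x hx
    rw [← hlen]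
    exact ⟨hbd s, hbd (s + 1)⟩

/-- The lower bound for fixed parameters. -/
theorem core {k : ℕ} (A : FA Br k) (S m j T D : ℕ) (hD : D + 3 = S) (hm : 0 < m)
    (hcor : ∀ w : List Br, w.length = len (3 * m) S + 2 * j → (w ∈ A.lang → IsDyck w))
    (htime : ∀ w : List Br, w.length = len (3 * m) S + 2 * j → IsDyck w →
      ∃ t ≤ T, ∃ c, ReachN (A.Step w) (A.start, fun _ => 0) t c ∧ c.1 ∈ A.accept)
    (h1 : k * k * (T + m * 2 ^ (S - 1) + 1) < (D + 1) * (m * 2 ^ (S - 1)))
    (h2 : 2 ^ (D + 1) * (m * ((Nat.card A.Q * (len (3 * m) S + 2 * j + 2) ^ k) ^ 2 + 1) ^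
      (2 * k * T / m)) < 2 ^ m) : False := by
  classical
  have hfin := A.finQ
  have : Fintype A.Q := Fintype.ofFinite _
  have hkey := key A S m j T D hD hm htime h1
  choose v i l hpat hlen hbd using hkey
  let N := len (3 * m) S + 2 * j + 1
  let E := 2 * k * T / m
  let F : (Nd D → Fin m → Bool) → Nd D × (Fin m × (Fin E → Option (Cb A N × Cb A N))) :=
    fun f => (v f, (i f, code N E (l f)))
  have hcard : Fintype.card (Nd D) * Fintype.card (Fin m × (Fin E → Option (Cb A N × Cb A N))) <
      Fintype.card (Fin m → Bool) := by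
    have e1 : Fintype.card (Fin m × (Fin E → Option (Cb A N × Cb A N))) =
        m * ((Nat.card A.Q * (len (3 * m) S + 2 * j + 2) ^ k) ^ 2 + 1) ^ E := by
      simp only [Fintype.card_prod, Fintype.card_fin, Fintype.card_fun, Fintype.card_option,
        Nat.card_eq_fintype_card, pow_two]
      rfl
    rw [e1, Fintype.card_fun, Fintype.card_bool, Fintype.card_fin]
    exact lt_of_le_of_lt (Nat.mul_le_mul_right _ (card_nodes D)) h2
  obtain ⟨f, f', hne, hF, hoff⟩ := pigeon F hcard
  obtain ⟨hv, hF2⟩ := Prod.mk.inj hF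
  obtain ⟨hi, hcode⟩ := Prod.mk.inj hF2
  have hl : l f = l f' := code_inj (hlen f) (hlen f') (hbd f) (hbd f') hcode
  -- the labellings
  have hL := length_Lb D m f
  have hL' := length_Lb D m f'
  have hLoff : ∀ π, π ≠ (v f).1 → Lb D m f π = Lb D m f' π := by
    intro π hπ
    unfold Lb
    split_ifs with h
    · rw [hoff ⟨π, h⟩ (fun he => hπ (congrArg Subtype.val he))]
    · rfl
  have hLv : ∀ q : ℕ, (Lb D m f (v f).1)[q]? ≠ (Lb D m f' (v f).1)[q]? →
      m ≤ q ∧ q < 2 * m := by
    intro q hq
    unfold Lb at hq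
    rw [dif_pos (v f).2, dif_pos (v f).2] at hq
    exact lab_ne hq
  have hvS : (v f).1.length ≤ S := by have := (v f).2; omega
  -- the mixed word
  set y : List Br := tw S (Lb D m f) (Lb D m f') ++ pad j with hy
  have hylen : y.length = len (3 * m) S + 2 * j := by
    rw [hy, List.length_append, length_tw S _ _ hL hL', length_pad]
  have hwlen : (tw S (Lb D m f) (Lb D m f) ++ pad j).length = y.length := by
    rw [hylen, List.length_append, length_tw S _ _ hL hL, length_pad]
  have hwlen' : (tw S (Lb D m f') (Lb D m f') ++ pad j).length = y.length := by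
    rw [hylen, List.length_append, length_tw S _ _ hL' hL', length_pad]
  have hynot : ¬ IsDyck y := by
    intro h
    rw [isDyck_iff, hy, run_append, Option.bind_eq_some_iff] at h
    obtain ⟨s, h3, -⟩ := h
    obtain ⟨-, h4⟩ := run_tw S _ _ _ _ hL hL' h3
    apply hne
    funext u
    by_cases hu : u = v f
    · subst hu
      have h5 := h4 (v f).1 hvS
      unfold Lb at h5
      rw [dif_pos (v f).2, dif_pos (v f).2] at h5
      exact (lab_inj h5).symm
    · exact hoff u hu
  apply hynot
  apply hcor y hylen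
  -- differences of the words
  have hd := ((diff_tw_close S (Lb D m f) (Lb D m f) (Lb D m f') (v f).1 hL hL hL' hLoff
    hvS).append (by rw [length_tw S _ _ hL hL, length_tw S _ _ hL hL'])
      (Diff.refl (pad j) (fun _ => False)))
  have hd' := ((diff_tw_open S (Lb D m f') (Lb D m f) (Lb D m f') (v f).1 hL' hL hL'
    (fun π hπ => (hLoff π hπ).symm) hvS).append
      (by rw [length_tw S _ _ hL' hL', length_tw S _ _ hL hL'])
      (Diff.refl (pad j) (fun _ => False)))
  have hle := st_le (3 * m) S (v f).1 hvS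
  have hlen3 : 3 * m ≤ len (3 * m) (S - (v f).1.length) := by
    have h3 := len_eq (3 * m) (S - (v f).1.length)
    have h4 : 2 ^ 2 ≤ 2 ^ (S - (v f).1.length + 2) := Nat.pow_le_pow_right (by omega) (by omega)
    have h5 : 3 * m * 2 ^ 2 ≤ 3 * m * 2 ^ (S - (v f).1.length + 2) := Nat.mul_le_mul_left _ h4
    omega
  have hp := hpat f
  have hp' := hpat f'
  rw [← hv, ← hi, ← hl] at hp'
  refine paste hwlen hwlen' ?_ ?_ (l f) _ hp hp'
  · intro c hG hJ a
    by_contra hcon
    obtain ⟨q, hq, hq2⟩ := tape_ne hcon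
    apply hJ
    rcases hd q hq2 with ⟨u, hu, hu2, hu3⟩ | ⟨q', -, h⟩
    · obtain ⟨hu4, hu5⟩ := hLv u hu2
      have hif := (i f).2
      refine ⟨a, ?_, ?_⟩
      · rw [hq]; omega
      · rw [hq]; omega
    · exact h.elim
  · intro c hG hJ a
    by_contra hcon
    obtain ⟨q, hq, hq2⟩ := tape_ne hcon
    apply hG
    obtain ⟨b, hb1, hb2⟩ := hJ
    rcases hd' q hq2 with ⟨u, hu, -, hu3⟩ | ⟨q', -, h⟩
    · refine ⟨a, b, ?_, ?_, ?_, ?_⟩
      · rw [hq]; omega
      · rw [hq]; omega
      · omega
      · omega
    · exact h.elim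

end Pool.Agent.Time
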