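import Mathlib

/-!
The Dyck language with two kinds of brackets.
-/

set_option autoImplicit false

namespace Pool.Agent.Time

/-- Brackets: `(true, b)` is the opening bracket of kind `b`, `(false, b)` the closing one. -/
abbrev Br := Bool × Bool

/-- The Dyck language with two kinds of brackets: well-nested bracket words. -/
inductive IsDyck : List Br → Prop
  | nil : IsDyck []
  | step {u v : List Br} (b : Bool) : IsDyck u → IsDyck v →
      IsDyck ((true, b) :: (u ++ (false, b) :: v))

end Pool.Agent.Time
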