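import Pool.Agent.Lib_helper16.Heads.Defs
import Pool.Agent.Lib_helper16.Time.Word

/-!
A deterministic one-way pushdown automaton for the Dyck language.
-/

set_option autoImplicit false

namespace Pool.Agent.Time

open Pool.Agent.Heads

/-- The transitions: in state `false` the automaton reads, in state `true` it has accepted. -/
def dδ : Bool → Sym Br → Option Bool → Option (Bool × (Fin 1 → Dir) × Op Bool)
  | false, Sym.left, _ => some (false, fun _ => Dir.R, Op.none)
  | false, Sym.letter (true, b), _ => some (false, fun _ => Dir.R, Op.push b)
  | false, Sym.letter (false, b), some c =>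
      if b = c then some (false, fun _ => Dir.R, Op.pop) else none
  | false, Sym.letter (false, _), none => none
  | false, Sym.right, none => some (true, fun _ => Dir.S, Op.none)
  | false, Sym.right, some _ => none
  | true, _, _ => none

/-- The automaton. -/
def dyckPDA : PDA Br 1 where
  Q := Bool
  Γ := Bool
  finQ := inferInstance
  finΓ := inferInstance
  start := false
  accept := {true}
  δ := fun q x g => {t | dδ q (x 0) g = some t}

lemma dyckPDA_det : dyckPDA.Det := by
  intro q x g a ha b hb
  have ha' : dδ q (x 0) g = some a := ha
  have hb' : dδ q (x 0) g = some b := hb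
  rw [ha'] at hb'
  exact Option.some.inj hb'

lemma dyckPDA_step (w : List Br) (c c' : Cfg Bool (Fin 1 → ℕ) Bool) :
    dyckPDA.Step w c c' ↔ ∃ t, dδ c.state (tape w (c.pos 0)) c.stack.head? = some t ∧
      c' = ⟨t.1, fun i => move (w.length + 1) (c.pos i) (t.2.1 i), t.2.2.apply c.stack⟩ :=
  Iff.rfl

lemma take_succ' {w : List Br} {t : ℕ} {a : Br} (h : w[t]? = some a) :
    w.take (t + 1) = w.take t ++ [a] := by
  rw [List.take_add_one, h]
  rfl

lemma tape_letter {w : List Br} {t : ℕ} {a : Br} (h : w[t]? = some a) :
    tape w (t + 1) = Sym.letter a := by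
  simp only [tape, h]

lemma tape_end {w : List Br} : tape w (w.length + 1) = Sym.right := by
  have h : w[w.length]? = none := List.getElem?_eq_none le_rfl
  simp only [tape, h]

lemma none_absurd {P : Prop} {tr : Bool × (Fin 1 → Dir) × Op Bool}
    (h : (none : Option (Bool × (Fin 1 → Dir) × Op Bool)) = some tr) : P :=
  absurd h (by simp)

/-- The computation. -/
lemma dyckPDA_reach (w : List Br) (t : ℕ) : ∀ c, dyckPDA.Reach w t c →
    (c.state = false ∧ c.pos 0 = t ∧ t ≤ w.length + 1 ∧
      run (w.take (t - 1)) [] = some c.stack) ∨
    (c.state = true ∧ c.pos 0 = w.length + 1 ∧ t = w.length + 2 ∧ run w [] = some []) := by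
  intro c h
  induction h with
  | zero => exact Or.inl ⟨rfl, rfl, Nat.zero_le _, rfl⟩
  | @succ t c c' _ hs ih =>
    obtain ⟨tr, htr, rfl⟩ := (dyckPDA_step w c c').1 hs
    rcases ih with ⟨h1, h2, h3, h4⟩ | ⟨h1, -, -, -⟩
    · rw [h1, h2] at htr
      obtain ⟨q, p, σ⟩ := c
      change List Bool at σ
      change q = false at h1
      change p 0 = t at h2
      change run (w.take (t - 1)) [] = some σ at h4
      change dδ false (tape w t) σ.head? = some tr at htr
      cases t with
      | zero =>
        have htr' : dδ false Sym.left σ.head? = some tr := htr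
        have e : some ((false, fun _ => Dir.R, Op.none) : Bool × (Fin 1 → Dir) × Op Bool) =
          some tr := by
          rw [← htr']; cases σ <;> rfl
        obtain rfl := Option.some.inj e
        left
        refine ⟨rfl, ?_, by omega, h4⟩
        show move (w.length + 1) (p 0) Dir.R = 0 + 1
        rw [h2]
        simp only [move]; omega
      | succ t =>
        simp only [Nat.add_sub_cancel] at h4
        rcases Nat.lt_or_ge t w.length with hlt | hge
        · obtain ⟨a, ha⟩ : ∃ a, w[t]? = some a := ⟨w[t], List.getElem?_eq_getElem hlt⟩
          rw [tape_letter ha] at htr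
          have hpos : move (w.length + 1) (p 0) Dir.R = t + 1 + 1 := by
            rw [h2]
            simp only [move]; omega
          have hrun : run (w.take (t + 1 + 1 - 1)) [] = (run [a] σ) := by
            have e : t + 1 + 1 - 1 = t + 1 := by omega
            rw [e, take_succ' ha, run_append, h4]
            rfl
          left
          obtain ⟨a1, a2⟩ := a
          cases a1 with
          | true =>
            have e : some ((false, fun _ => Dir.R, Op.push a2) :
                Bool × (Fin 1 → Dir) × Op Bool) = some tr := by
              rw [← htr]; cases σ <;> rfl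
            obtain rfl := Option.some.inj e
            exact ⟨rfl, hpos, by omega, hrun⟩
          | false =>
            cases σ with
            | nil => exact none_absurd htr
            | cons b σ =>
              change Bool at b
              have htr' : (if a2 = b then some ((false, fun _ => Dir.R, Op.pop) :
                Bool × (Fin 1 → Dir) × Op Bool) else none) = some tr := htr
              by_cases hb : a2 = b
              · rw [if_pos hb] at htr'
                obtain rfl := Option.some.inj htr'
                refine ⟨rfl, hpos, by omega, ?_⟩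
                rw [hrun]
                show (if a2 = b then some σ else none) = some σ
                rw [if_pos hb]
              · rw [if_neg hb] at htr'
                exact absurd htr' (by simp)
        · have ht : t = w.length := by omega
          subst ht
          rw [tape_end] at htr
          right
          cases σ with
          | cons b σ => exact none_absurd htr
          | nil =>
            have e : some ((true, fun _ => Dir.S, Op.none) : Bool × (Fin 1 → Dir) × Op Bool) =
              some tr := htr
            obtain rfl := Option.some.inj e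
            rw [List.take_length] at h4
            exact ⟨rfl, h2, rfl, h4⟩
    · rw [h1] at htr
      exact absurd htr (by simp [dδ])

lemma dyckPDA_run {w : List Br} (hw : run w [] = some []) (t : ℕ) : t ≤ w.length →
    ∃ σ, run (w.take t) [] = some σ ∧
      dyckPDA.Reach w (t + 1) (⟨false, fun _ => t + 1, σ⟩ : Cfg Bool (Fin 1 → ℕ) Bool) := by
  induction t with
  | zero =>
    intro _
    refine ⟨[], rfl, PDA.Reach.succ PDA.Reach.zero ?_⟩
    refine (dyckPDA_step w _ _).2 ⟨(false, fun _ => Dir.R, Op.none), rfl, ?_⟩
    show (⟨false, fun _ => 0 + 1, []⟩ : Cfg Bool (Fin 1 → ℕ) Bool) =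
      ⟨false, fun _ => move (w.length + 1) 0 Dir.R, []⟩
    have : move (w.length + 1) 0 Dir.R = 0 + 1 := by simp only [move]; omega
    rw [this]
  | succ t ih =>
    intro ht
    obtain ⟨σ, h1, h2⟩ := ih (by omega)
    obtain ⟨a, ha⟩ : ∃ a, w[t]? = some a := ⟨w[t], List.getElem?_eq_getElem (by omega)⟩
    have h3 : run (w.take (t + 1)) [] = run [a] σ := by
      rw [take_succ' ha, run_append, h1]
      rfl
    have h4 : ∃ σ', run (w.take (t + 1)) [] = some σ' := by
      cases h5 : run (w.take (t + 1)) [] with
      | some σ' => exact ⟨σ', rfl⟩
      | none =>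
        rw [← List.take_append_drop (t + 1) w, run_append, h5] at hw
        exact absurd hw (by simp)
    obtain ⟨σ', h5⟩ := h4
    refine ⟨σ', h5, PDA.Reach.succ h2 ?_⟩
    rw [h3] at h5
    have hpos : move (w.length + 1) (t + 1) Dir.R = t + 1 + 1 := by
      simp only [move]; omega
    obtain ⟨a1, a2⟩ := a
    cases a1 with
    | true =>
      have h6 : some (a2 :: σ) = some σ' := h5
      obtain rfl := Option.some.inj h6
      refine (dyckPDA_step w _ _).2 ⟨(false, fun _ => Dir.R, Op.push a2), ?_, ?_⟩
      · show dδ false (tape w (t + 1)) σ.head? = _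
        rw [tape_letter ha]
        cases σ <;> rfl
      · show (⟨false, fun _ => t + 1 + 1, a2 :: σ⟩ : Cfg Bool (Fin 1 → ℕ) Bool) =
          ⟨false, fun _ => move (w.length + 1) (t + 1) Dir.R, a2 :: σ⟩
        rw [hpos]
    | false =>
      cases σ with
      | nil => exact absurd h5 (by simp [run])
      | cons b σ =>
        have h6 : (if a2 = b then some σ else none) = some σ' := h5
        by_cases hb : a2 = b
        · rw [if_pos hb] at h6
          obtain rfl := Option.some.inj h6
          refine (dyckPDA_step w _ _).2 ⟨(false, fun _ => Dir.R, Op.pop), ?_, ?_⟩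
          · show dδ false (tape w (t + 1)) (some b) = _
            rw [tape_letter ha]
            show (if a2 = b then some _ else none) = some _
            rw [if_pos hb]
          · show (⟨false, fun _ => t + 1 + 1, σ⟩ : Cfg Bool (Fin 1 → ℕ) Bool) =
              ⟨false, fun _ => move (w.length + 1) (t + 1) Dir.R, σ⟩
            rw [hpos]
        · rw [if_neg hb] at h6
          exact absurd h6 (by simp)

/-- The automaton accepts the Dyck words, in `|w| + 2` steps. -/
lemma dyckPDA_accepts {w : List Br} (hw : IsDyck w) :
    ∃ c, dyckPDA.Reach w (w.length + 2) c ∧ c.state ∈ dyckPDA.accept := by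
  have hr := (isDyck_iff w).1 hw
  obtain ⟨σ, h1, h2⟩ := dyckPDA_run hr w.length le_rfl
  rw [List.take_length, hr] at h1
  obtain rfl := Option.some.inj h1
  refine ⟨⟨true, fun _ => w.length + 1, []⟩, PDA.Reach.succ h2 ?_, rfl⟩
  refine (dyckPDA_step w _ _).2 ⟨(true, fun _ => Dir.S, Op.none), ?_, rfl⟩
  show dδ false (tape w (w.length + 1)) none = _
  rw [tape_end]
  rfl

lemma dyckPDA_lang : dyckPDA.lang = {w | IsDyck w} := by
  ext w
  constructor
  · rintro ⟨t, c, h1, h2⟩
    have h2' : c.state = true := h2
    rcases dyckPDA_reach w t c h1 with ⟨h3, -⟩ | ⟨-, -, -, h3⟩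
    · rw [h3] at h2'
      exact absurd h2' (by simp)
    · exact (isDyck_iff w).2 h3
  · intro hw
    obtain ⟨c, h1, h2⟩ := dyckPDA_accepts hw
    exact ⟨_, c, h1, h2⟩

/-- In every step the head moves right, until it is on the right endmarker. -/
lemma dyckPDA_pos (w : List Br) (t : ℕ) (c : Cfg Bool (Fin 1 → ℕ) Bool)
    (h : dyckPDA.Reach w t c) : c.pos 0 = min t (w.length + 1) := by
  rcases dyckPDA_reach w t c h with ⟨-, h1, h2, -⟩ | ⟨-, h1, h2, -⟩ <;> omega

end Pool.Agent.Time
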