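import Mathlib

/-!
Travelling cost: `k` heads cannot visit all pairs of a multi-scale family of pairs of segments
in short time.
-/

set_option autoImplicit false

namespace Pool.Agent.Time

/-- Trajectories which move by at most one cell in each step. -/
def Lip (x : ℕ → ℕ) : Prop := ∀ t, x (t + 1) ≤ x t + 1 ∧ x t ≤ x (t + 1) + 1

lemma Lip.le {x : ℕ → ℕ} (h : Lip x) (t d : ℕ) : x (t + d) ≤ x t + d ∧ x t ≤ x (t + d) + d := by
  induction d with
  | zero => simp
  | succ d ih =>
    have := h (t + d)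
    rw [← add_assoc]
    omega

lemma case_same {A A' C p p' r L d d' w w' : ℕ} (hr : 16 * r ≤ L) (hw : 16 * w ≤ L)
    (hw' : 16 * w' ≤ L) (h2 : A < p + r) (h1' : p' ≤ A') (e1 : C ≤ A + d) (e3 : A' ≤ C + d')
    (f1 : d < w) (f2 : d' < w') (h : p + L ≤ p') : False := by
  have g1 : L < r + w + w' := by omega
  omega

lemma case_scale {A B A' B' C D p p' r L L' d d' w w' : ℕ} (hr' : 16 * r ≤ L')
    (hw : 16 * w ≤ L) (hw' : 16 * w' ≤ L') (h1 : p ≤ A) (h4 : B < p + L)
    (h2' : A' < p' + r) (h3' : p' + L' ≤ B' + r)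
    (e1 : A ≤ C + d) (e2 : D ≤ B + d) (e3 : C ≤ A' + d') (e4 : B' ≤ D + d')
    (f1 : d < w) (f2 : d' < w') (h : 2 * L ≤ L') : False := by
  have g1 : D < p + L + d := by omega
  have g2 : p ≤ C + d := by omega
  have g3 : C < p' + r + d' := by omega
  have g4 : p' + L' ≤ D + d' + r := by omega
  have g5 : p' + L' < p + L + d + d' + r := by omega
  have g6 : p < p' + r + d' + d := by omega
  have g7 : L' < L + 2 * r + 2 * d + 2 * d' := by omega
  have g8 : L' < L + 2 * r + 2 * w + 2 * w' := by omega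
  omega

/-- The windows of two nodes seen by the same pair of heads are disjoint. -/
lemma window_disjoint {xa xb : ℕ → ℕ} (ha : Lip xa) (hb : Lip xb) {r p L w p' L' w' t t' s : ℕ}
    (hr : 16 * r ≤ L) (hr' : 16 * r ≤ L') (hw : 16 * w ≤ L) (hw' : 16 * w' ≤ L')
    (h1 : p ≤ xa t) (h2 : xa t < p + r) (h3 : p + L ≤ xb t + r) (h4 : xb t < p + L)
    (h1' : p' ≤ xa t') (h2' : xa t' < p' + r) (h3' : p' + L' ≤ xb t' + r)
    (h4' : xb t' < p' + L')
    (hs1 : t ≤ s) (hs2 : s < t + w) (hs1' : t' ≤ s) (hs2' : s < t' + w')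
    (hcase : (L = L' ∧ (p + L ≤ p' ∨ p' + L' ≤ p)) ∨ 2 * L ≤ L' ∨ 2 * L' ≤ L) : False := by
  obtain ⟨d, rfl⟩ : ∃ d, s = t + d := ⟨s - t, by omega⟩
  obtain ⟨d', hd'⟩ : ∃ d', t + d = t' + d' := ⟨t + d - t', by omega⟩
  have e1 := ha.le t d
  have e2 := hb.le t d
  have e3 := ha.le t' d'
  have e4 := hb.le t' d'
  rw [← hd'] at e3 e4
  have f1 : d < w := by omega
  have f2 : d' < w' := by omega
  rcases hcase with ⟨rfl, h | h⟩ | h | h
  · exact case_same hr hw hw' h2 h1' e1.1 e3.2 f1 f2 h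
  · exact case_same hr hw' hw h2' h1 e3.1 e1.2 f2 f1 h
  · exact case_scale hr' hw hw' h1 h4 h2' h3' e1.2 e2.1 e3.1 e4.2 f1 f2 h
  · exact case_scale hr hw' hw h1' h4' h2 h3 e3.2 e4.1 e1.1 e2.2 f2 f1 h

/-- If the windows are too long in total, some node is never seen. -/
theorem uncovered {k T r W : ℕ} (x : Fin k → ℕ → ℕ) (hx : ∀ a, Lip (x a)) {V : Type}
    [Fintype V] (p L w : V → ℕ) (hr : ∀ v, 16 * r ≤ L v) (hw : ∀ v, 16 * w v ≤ L v)
    (hW : ∀ v, w v ≤ W)
    (hsep : ∀ v v', v ≠ v' → L v = L v' → p v + L v ≤ p v' ∨ p v' + L v' ≤ p v)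
    (hsc : ∀ v v', L v = L v' ∨ 2 * L v ≤ L v' ∨ 2 * L v' ≤ L v)
    (hT : k * k * (T + W + 1) < ∑ v, w v) :
    ∃ v, ∀ t ≤ T, ∀ a b, ¬ (p v ≤ x a t ∧ x a t < p v + r ∧ p v + L v ≤ x b t + r ∧
      x b t < p v + L v) := by
  classical
  by_contra hcon
  push Not at hcon
  choose τ hτ A B h using hcon
  have hsum : ∑ v, w v ≤ ∑ ab : Fin k × Fin k, (T + W + 1) := by
    rw [← Finset.sum_fiberwise (s := Finset.univ) (g := fun v => (A v, B v))]
    refine Finset.sum_le_sum ?_
    rintro ⟨a, b⟩ -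
    have hcard : ∑ v ∈ Finset.univ.filter (fun v => (A v, B v) = (a, b)), w v =
        ((Finset.univ.filter (fun v => (A v, B v) = (a, b))).biUnion
          (fun v => Finset.Ico (τ v) (τ v + w v))).card := by
      rw [Finset.card_biUnion]
      · refine Finset.sum_congr rfl ?_
        intro v _
        simp
      · intro v hv v' hv' hne
        rw [Function.onFun, Finset.disjoint_left]
        intro s hs hs'
        rw [Finset.mem_coe, Finset.mem_filter] at hv hv'
        obtain ⟨-, hv⟩ := hv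
        obtain ⟨-, hv'⟩ := hv'
        rw [Finset.mem_Ico] at hs hs'
        obtain ⟨g1, g2, g3, g4⟩ := h v
        obtain ⟨g1', g2', g3', g4'⟩ := h v'
        have ea : A v = a := congrArg Prod.fst hv
        have eb : B v = b := congrArg Prod.snd hv
        have ea' : A v' = a := congrArg Prod.fst hv'
        have eb' : B v' = b := congrArg Prod.snd hv'
        rw [ea] at g1 g2
        rw [eb] at g3 g4
        rw [ea'] at g1' g2'
        rw [eb'] at g3' g4'
        refine window_disjoint (hx a) (hx b) (hr v) (hr v') (hw v) (hw v') g1 g2 g3 g4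
          g1' g2' g3' g4' hs.1 hs.2 hs'.1 hs'.2 ?_
        rcases hsc v v' with h5 | h5 | h5
        · exact Or.inl ⟨h5, hsep v v' hne h5⟩
        · exact Or.inr (Or.inl h5)
        · exact Or.inr (Or.inr h5)
    rw [hcard]
    calc _ ≤ (Finset.range (T + W + 1)).card := by
          refine Finset.card_le_card ?_
          intro s hs
          rw [Finset.mem_biUnion] at hs
          obtain ⟨v, -, hs⟩ := hs
          rw [Finset.mem_Ico] at hs
          rw [Finset.mem_range]
          have := hτ v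
          have := hW v
          omega
      _ = T + W + 1 := Finset.card_range _
  rw [Finset.sum_const, Finset.card_univ, Fintype.card_prod, Fintype.card_fin] at hsum
  rw [smul_eq_mul] at hsum
  omega

end Pool.Agent.Time
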