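import Pool.Agent.Lib_helper16.Heads.Track
import Pool.Agent.Lib_helper16.Time.Travel

/-!
Cut and paste for computations of multihead finite automata.
-/

set_option autoImplicit false

namespace Pool.Agent.Time

open Pool.Agent.Heads

variable {α : Type} {k : ℕ} (A : FA α k)

/-- Configurations. -/
abbrev Cf := A.Q × (Fin k → ℕ)

lemma step_transfer {w y : List α} (hlen : w.length = y.length) {c c' : Cf A}
    (h : ∀ a, tape w (c.2 a) = tape y (c.2 a)) (hs : A.Step w c c') : A.Step y c c' := by
  obtain ⟨t, ht, rfl⟩ := hs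
  refine ⟨t, ?_, ?_⟩
  · have : (fun i => tape y (c.2 i)) = fun i => tape w (c.2 i) := funext fun i => (h i).symm
    rw [this]
    exact ht
  · rw [hlen]

/-- Accepting computations from a configuration, with the list of the steps at which the
condition `J` changes; all configurations satisfy `G`. -/
inductive Pat (w : List α) (G J : Cf A → Prop) : Cf A → List (Cf A × Cf A) → Prop
  | acc {c : Cf A} : G c → c.1 ∈ A.accept → Pat w G J c []
  | stay {c c' : Cf A} {l : List (Cf A × Cf A)} : G c → A.Step w c c' → (J c ↔ J c') →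
      Pat w G J c' l → Pat w G J c l
  | chg {c c' : Cf A} {l : List (Cf A × Cf A)} : G c → A.Step w c c' → ¬ (J c ↔ J c') →
      Pat w G J c' l → Pat w G J c ((c, c') :: l)

variable {A}

lemma Pat.tail {w : List α} {G J : Cf A → Prop} {c : Cf A} {l : List (Cf A × Cf A)}
    (h : Pat A w G J c l) : ∀ x l', l = x :: l' → Pat A w G J x.2 l' := by
  induction h with
  | acc _ _ => intro x l' h; exact absurd h (by simp)
  | stay _ _ _ _ ih => exact ih
  | chg _ _ _ h _ =>
    intro x l' he
    obtain ⟨rfl, rfl⟩ := List.cons.inj he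
    exact h

lemma Pat.follow {w y : List α} (hlen : w.length = y.length) {G J : Cf A → Prop} {s : Prop}
    (H : ∀ c : Cf A, G c → (J c ↔ s) → ∀ a, tape w (c.2 a) = tape y (c.2 a))
    {c : Cf A} {l : List (Cf A × Cf A)} (h : Pat A w G J c l) (hs : J c ↔ s) :
    (l = [] → ∃ c', Relation.ReflTransGen (A.Step y) c c' ∧ c'.1 ∈ A.accept) ∧
      ∀ x l', l = x :: l' → Relation.ReflTransGen (A.Step y) c x.2 := by
  induction h with
  | acc hG ha =>
    exact ⟨fun _ => ⟨_, Relation.ReflTransGen.refl, ha⟩, fun x l' h => absurd h (by simp)⟩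
  | stay hG hst hJ _ ih =>
    have h1 := step_transfer A hlen (H _ hG hs) hst
    obtain ⟨h2, h3⟩ := ih (hJ.symm.trans hs)
    refine ⟨fun hl => ?_, fun x l' hl => ?_⟩
    · obtain ⟨c', h4, h5⟩ := h2 hl
      exact ⟨c', Relation.ReflTransGen.head h1 h4, h5⟩
    · exact Relation.ReflTransGen.head h1 (h3 x l' hl)
  | chg hG hst hJ _ _ =>
    have h1 := step_transfer A hlen (H _ hG hs) hst
    refine ⟨fun hl => absurd hl (by simp), fun x l' hl => ?_⟩
    obtain ⟨rfl, rfl⟩ := List.cons.inj hl
    exact Relation.ReflTransGen.single h1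

/-- The cut and paste lemma. -/
theorem paste {w w' y : List α} (hlen : w.length = y.length) (hlen' : w'.length = y.length)
    {G G' J : Cf A → Prop}
    (H : ∀ c : Cf A, G c → ¬ J c → ∀ a, tape w (c.2 a) = tape y (c.2 a))
    (H' : ∀ c : Cf A, G' c → J c → ∀ a, tape w' (c.2 a) = tape y (c.2 a))
    (l : List (Cf A × Cf A)) : ∀ c : Cf A, Pat A w G J c l → Pat A w' G' J c l →
      ∃ c', Relation.ReflTransGen (A.Step y) c c' ∧ c'.1 ∈ A.accept := by
  induction l with
  | nil =>
    intro c h1 h2
    by_cases hJ : J c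
    · exact (h2.follow (s := True) hlen' (fun c hG hc => H' c hG (by simpa using hc))
        (by simpa using hJ)).1 rfl
    · exact (h1.follow (s := False) hlen (fun c hG hc => H c hG (by simpa using hc))
        (by simpa using hJ)).1 rfl
  | cons x l ih =>
    intro c h1 h2
    obtain ⟨c', h3, h4⟩ := ih x.2 (h1.tail x l rfl) (h2.tail x l rfl)
    by_cases hJ : J c
    · exact ⟨c', ((h2.follow (s := True) hlen' (fun c hG hc => H' c hG (by simpa using hc))
        (by simpa using hJ)).2 x l rfl).trans h3, h4⟩
    · exact ⟨c', ((h1.follow (s := False) hlen (fun c hG hc => H c hG (by simpa using hc))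
        (by simpa using hJ)).2 x l rfl).trans h3, h4⟩

open Classical in
/-- The number of changes of `J` along a run. -/
noncomputable def changes (J : Cf A → Prop) (r : ℕ → Cf A) (a b : ℕ) : ℕ :=
  ((Finset.Ico a b).filter (fun t => ¬ (J (r t) ↔ J (r (t + 1))))).card

open Classical in
/-- A run gives a pattern. -/
lemma pat_of_run {w : List α} {G J : Cf A → Prop} {r : ℕ → Cf A} {T : ℕ}
    (hr : ∀ t < T, A.Step w (r t) (r (t + 1))) (hG : ∀ t ≤ T, G (r t))
    (hacc : (r T).1 ∈ A.accept) (n : ℕ) : ∀ t, t + n = T →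
      ∃ l, Pat A w G J (r t) l ∧ l.length ≤ changes J r t T ∧
        ∀ x ∈ l, ∃ s < T, x = (r s, r (s + 1)) := by
  induction n with
  | zero =>
    intro t ht
    have : t = T := by omega
    subst this
    exact ⟨[], Pat.acc (hG t le_rfl) hacc, by simp, by simp⟩
  | succ n ih =>
    intro t ht
    obtain ⟨l, h1, h2, h3⟩ := ih (t + 1) (by omega)
    have hins : Finset.Ico t T = insert t (Finset.Ico (t + 1) T) := by
      ext s
      simp only [Finset.mem_Ico, Finset.mem_insert]
      omega
    by_cases hJ : J (r t) ↔ J (r (t + 1))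
    · refine ⟨l, Pat.stay (hG t (by omega)) (hr t (by omega)) hJ h1, h2.trans ?_, h3⟩
      unfold changes
      apply Finset.card_le_card
      apply Finset.filter_subset_filter
      rw [hins]
      exact Finset.subset_insert _ _
    · refine ⟨(r t, r (t + 1)) :: l, Pat.chg (hG t (by omega)) (hr t (by omega)) hJ h1, ?_, ?_⟩
      · unfold changes at h2 ⊢
        rw [hins, Finset.filter_insert, if_pos hJ, Finset.card_insert_of_notMem (by simp),
          List.length_cons]
        omega
      · intro x hx
        rcases List.mem_cons.1 hx with rfl | hx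
        · exact ⟨t, by omega, rfl⟩
        · exact h3 x hx

/-- Some head is in the segment `[s, e)`. -/
def inSeg (s e : ℕ) (c : Cf A) : Prop := ∃ a, s ≤ c.2 a ∧ c.2 a < e

open Classical in
/-- Among `m` nested segments one is entered or left rarely. -/
lemma exists_cut {r : ℕ → Cf A} {T m s e : ℕ} (hm : 0 < m)
    (hr : ∀ t < T, ∀ a, (r (t + 1)).2 a ≤ (r t).2 a + 1 ∧ (r t).2 a ≤ (r (t + 1)).2 a + 1) :
    ∃ i < m, m * changes (inSeg (A := A) (s + i) (e - i)) r 0 T ≤ 2 * k * T := by
  by_contra hcon
  push Not at hcon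
  -- the number of `i` for which a given step is a change
  have hstep : ∀ t < T, ((Finset.range m).filter (fun i =>
      ¬ (inSeg (A := A) (s + i) (e - i) (r t) ↔ inSeg (s + i) (e - i) (r (t + 1))))).card ≤
        2 * k := by
    intro t ht
    have hsub : (Finset.range m).filter (fun i =>
        ¬ (inSeg (A := A) (s + i) (e - i) (r t) ↔ inSeg (s + i) (e - i) (r (t + 1)))) ⊆
        (Finset.univ : Finset (Fin k)).biUnion (fun a =>
          {max ((r t).2 a) ((r (t + 1)).2 a) - s, e - max ((r t).2 a) ((r (t + 1)).2 a)}) := by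
      intro i hi
      rw [Finset.mem_filter] at hi
      obtain ⟨-, hi⟩ := hi
      have : ∃ a, ¬ (((s + i ≤ (r t).2 a) ∧ (r t).2 a < e - i) ↔
          ((s + i ≤ (r (t + 1)).2 a) ∧ (r (t + 1)).2 a < e - i)) := by
        by_contra h
        push Not at h
        apply hi
        unfold inSeg
        exact exists_congr h
      obtain ⟨a, ha⟩ := this
      rw [Finset.mem_biUnion]
      refine ⟨a, Finset.mem_univ _, ?_⟩
      rw [Finset.mem_insert, Finset.mem_singleton]
      have := hr t ht a
      omega
    refine (Finset.card_le_card hsub).trans ((Finset.card_biUnion_le).trans ?_)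
    refine (Finset.sum_le_sum (fun a _ => Finset.card_le_two)).trans ?_
    rw [Finset.sum_const, Finset.card_univ, Fintype.card_fin, smul_eq_mul]
    omega
  -- double counting
  have hdc : ∑ i ∈ Finset.range m, changes (inSeg (A := A) (s + i) (e - i)) r 0 T ≤
      2 * k * T := by
    have h1 : ∀ i, changes (inSeg (A := A) (s + i) (e - i)) r 0 T =
        ∑ t ∈ Finset.range T, if ¬ (inSeg (A := A) (s + i) (e - i) (r t) ↔
          inSeg (s + i) (e - i) (r (t + 1))) then 1 else 0 := by
      intro i
      unfold changes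
      rw [Finset.card_filter, Finset.range_eq_Ico]
    simp only [h1]
    rw [Finset.sum_comm]
    have h2 : ∀ t ∈ Finset.range T, (∑ i ∈ Finset.range m,
        if ¬ (inSeg (A := A) (s + i) (e - i) (r t) ↔
          inSeg (s + i) (e - i) (r (t + 1))) then 1 else 0) ≤ 2 * k := by
      intro t ht
      rw [← Finset.card_filter]
      exact hstep t (Finset.mem_range.1 ht)
    refine (Finset.sum_le_sum h2).trans ?_
    rw [Finset.sum_const, Finset.card_range, smul_eq_mul]
    exact le_of_eq (by ring)
  -- contradiction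
  have hlt : ∑ i ∈ Finset.range m, (2 * k * T) < ∑ i ∈ Finset.range m,
      m * changes (inSeg (A := A) (s + i) (e - i)) r 0 T :=
    Finset.sum_lt_sum_of_nonempty ⟨0, Finset.mem_range.2 hm⟩
      (fun i hi => hcon i (Finset.mem_range.1 hi))
  rw [Finset.sum_const, Finset.card_range, smul_eq_mul, ← Finset.mul_sum] at hlt
  exact absurd (Nat.mul_le_mul_left m hdc) (by omega)

end Pool.Agent.Time
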